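import Pool.Agent.H17.OCM.RelT
import Pool.Agent.H86.OCM.Ravs

/-!
# Theorem OCV, row REL, with RAVS (helper17)
-/

set_option autoImplicit false

namespace Pool.OCV.M17

open Pool.OCM

/-- REL without hypotheses. -/
theorem rel_fin {c : ℕ} (hc : 0 < c) : RELStmt c := rel_thm c (Pool.OCM.RV.ravs_thm hc)

end Pool.OCV.M17
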