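import Pool.Agent.H17.OCM.MI

/-!
# Theorem OC in codimension `c`, row REL: activity in the cells of the mates (helper17)
-/

set_option autoImplicit false

namespace Pool.OCM.M17

open Finset Real
open Pool.Agent.H49.Ent Pool.Agent.H32.Dense Pool.STK Pool.KAF Pool.KAL Pool.KX
open Pool.OC.RS

section

variable {Ω S T U β : Type} [Fintype Ω]

/-- The first `s` digits. -/
noncomputable def dig (om : Ω → ℝ) (s : ℕ) (ω : Ω) : ℤ := ⌊(2 : ℝ) ^ s * om ω⌋

/-- The next `K` digits. -/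
noncomputable def blk (om : Ω → ℝ) (K s : ℕ) (ω : Ω) : ℤ :=
  dig om (s + K) ω - 2 ^ K * dig om s ω

theorem dig_bounds (om : Ω → ℝ) (s : ℕ) (ω : Ω) :
    (dig om s ω : ℝ) ≤ 2 ^ s * om ω ∧ 2 ^ s * om ω < dig om s ω + 1 :=
  ⟨Int.floor_le _, Int.lt_floor_add_one _⟩

theorem blk_mem (om : Ω → ℝ) (K s : ℕ) (ω : Ω) : blk om K s ω ∈ Finset.Ico (0 : ℤ) (2 ^ K) := by
  have h1 := dig_bounds om s ω
  have h2 := dig_bounds om (s + K) ω
  have hK : (0 : ℝ) < 2 ^ K := by positivity
  rw [Finset.mem_Ico]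
  have e1 : (2 : ℝ) ^ (s + K) * om ω = 2 ^ K * (2 ^ s * om ω) := by rw [pow_add]; ring
  have a1 : (2 : ℝ) ^ K * (dig om s ω : ℝ) ≤ 2 ^ (s + K) * om ω := by
    rw [e1]
    exact mul_le_mul_of_nonneg_left h1.1 hK.le
  have a2 : (2 : ℝ) ^ (s + K) * om ω < 2 ^ K * (dig om s ω : ℝ) + 2 ^ K := by
    rw [e1]
    have := mul_lt_mul_of_pos_left h1.2 hK
    linarith
  constructor
  · have : (((2 : ℤ) ^ K * dig om s ω : ℤ) : ℝ) < ((dig om (s + K) ω + 1 : ℤ) : ℝ) := by
      push_cast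
      linarith [h2.2]
    have h3 : (2 : ℤ) ^ K * dig om s ω < dig om (s + K) ω + 1 := by exact_mod_cast this
    unfold blk
    linarith
  · have : ((dig om (s + K) ω : ℤ) : ℝ) < ((2 ^ K * dig om s ω + 2 ^ K : ℤ) : ℝ) := by
      push_cast
      linarith [h2.1]
    have h3 : dig om (s + K) ω < 2 ^ K * dig om s ω + 2 ^ K := by exact_mod_cast this
    unfold blk
    linarith

theorem dig_step (om : Ω → ℝ) (K s : ℕ) {ω ω' : Ω} (h : dig om (s + K) ω = dig om (s + K) ω') :
    dig om s ω = dig om s ω' := by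
  have e : ∀ v, dig om s v = dig om (s + K) v / 2 ^ K := by
    intro v
    have h1 := Finset.mem_Ico.mp (blk_mem om K s v)
    unfold blk at h1
    have hK : (0 : ℤ) < 2 ^ K := by positivity
    symm
    rw [Int.ediv_eq_iff_of_pos hK]
    constructor
    · linarith [h1.1]
    · linarith [h1.2]
  rw [e, e, h]

theorem dig_mono (om : Ω → ℝ) {s t : ℕ} (hst : s ≤ t) {ω ω' : Ω}
    (h : dig om t ω = dig om t ω') : dig om s ω = dig om s ω' := by
  obtain ⟨K, rfl⟩ := Nat.exists_eq_add_of_le hst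
  exact dig_step om K s h

open Classical in
/-- The events of activity in terms of the next digits. -/
theorem far_blk (om : Ω → ℝ) (k s : ℕ) {ω v : Ω} (hd : dig om s v = dig om s ω) :
    ((2 : ℝ) ^ (-((s : ℤ) + k)) ≤ |om v - om ω| →
      4 ≤ |blk om (k + 2) s v - blk om (k + 2) s ω|) ∧
    (4 ≤ |blk om (k + 2) s v - blk om (k + 2) s ω| →
      (2 : ℝ) ^ (-((s : ℤ) + k + 1)) ≤ |om v - om ω|) := by
  have e0 : blk om (k + 2) s v - blk om (k + 2) s ω =
      dig om (s + (k + 2)) v - dig om (s + (k + 2)) ω := by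
    unfold blk
    rw [hd]
    ring
  rw [e0]
  set n := s + (k + 2) with hn
  have h1 := dig_bounds om n v
  have h2 := dig_bounds om n ω
  have hP : (0 : ℝ) < 2 ^ n := by positivity
  have e1 : (2 : ℝ) ^ (-((s : ℤ) + k)) = 4 / 2 ^ n := by
    rw [zpow_neg, eq_div_iff hP.ne', inv_mul_eq_div, div_eq_iff (by positivity)]
    have : ((s : ℤ) + k) = ((s + k : ℕ) : ℤ) := by push_cast; ring
    rw [this, zpow_natCast, hn]
    rw [show s + (k + 2) = (s + k) + 2 by omega, pow_add]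
    ring
  have e2 : (2 : ℝ) ^ (-((s : ℤ) + k + 1)) = 2 / 2 ^ n := by
    rw [zpow_neg, eq_div_iff hP.ne', inv_mul_eq_div, div_eq_iff (by positivity)]
    have : ((s : ℤ) + k + 1) = ((s + k + 1 : ℕ) : ℤ) := by push_cast; ring
    rw [this, zpow_natCast, hn]
    rw [show s + (k + 2) = (s + k + 1) + 1 by omega, pow_succ]
    ring
  have e3 : |om v - om ω| * 2 ^ n = |2 ^ n * om v - 2 ^ n * om ω| := by
    rw [← mul_sub, abs_mul, abs_of_pos hP]
    ring
  constructor
  · intro h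
    rw [e1, div_le_iff₀ hP, e3] at h
    have h3 : (3 : ℝ) < |((dig om n v - dig om n ω : ℤ) : ℝ)| := by
      push_cast
      rcases le_abs.mp h with h | h
      · refine lt_of_lt_of_le ?_ (le_abs_self _)
        linarith [h1.2, h2.1]
      · refine lt_of_lt_of_le ?_ (neg_le_abs _)
        linarith [h1.1, h2.2]
    rw [← Int.cast_abs] at h3
    have h4 : (3 : ℤ) < |dig om n v - dig om n ω| := by exact_mod_cast h3
    omega
  · intro h
    rw [e2, div_le_iff₀ hP, e3]
    have h3 : (4 : ℝ) ≤ |((dig om n v - dig om n ω : ℤ) : ℝ)| := by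
      rw [← Int.cast_abs]
      exact_mod_cast h
    push_cast at h3
    rcases le_abs.mp h3 with h | h
    · refine le_trans ?_ (le_abs_self _)
      linarith [h1.1, h2.2]
    · refine le_trans ?_ (neg_le_abs _)
      linarith [h1.2, h2.1]

end

end Pool.OCM.M17
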