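import Pool.Agent.H17.OCM.Act

/-!
# Theorem OC in codimension `c`, row REL: activity in the cells of the mates, the sum (helper17)
-/

set_option autoImplicit false

namespace Pool.OCM.M17

open Finset Real
open Pool.Agent.H49.Ent Pool.Agent.H32.Dense Pool.STK Pool.KAF Pool.KAL Pool.KX
open Pool.OC.RS

section

variable {Ω S T U β : Type} [Fintype Ω]

theorem Pr_mono_supp {q : Ω → ℝ} (hq : ∀ ω, 0 ≤ q ω) {E E' : Set Ω}
    (h : ∀ ω, 0 < q ω → ω ∈ E → ω ∈ E') : Pr q E ≤ Pr q E' := by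
  classical
  rw [Pool.KAF.Pr_eq, Pool.KAF.Pr_eq]
  refine Finset.sum_le_sum fun ω _ => ?_
  rcases (hq ω).eq_or_lt with h0 | h0
  · rw [← h0]
    simp
  · by_cases h1 : ω ∈ E
    · rw [if_pos h1, if_pos (h ω h0 h1)]
    · rw [if_neg h1]
      split_ifs
      · exact h0.le
      · exact le_rfl

/-- One depth. -/
theorem act_one {p : Ω → ℝ} (hp : IsLaw p) (om : Ω → ℝ) (b : Ω → β) (c : Ω → T) (k s : ℕ) {a : ℝ}
    (ha : 0 < a) :
    ∑ ω, p ω * max 0 (Pr (Pool.Agent.H49.Ent.cond p (fun v => (dig om s v, b v))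
        (dig om s ω, b ω)) {v | (2 : ℝ) ^ (-((s : ℤ) + k)) ≤ |om v - om ω|} -
      Pr (Pool.Agent.H49.Ent.cond p (fun v => (c v, (dig om s v, b v)))
        (c ω, (dig om s ω, b ω))) {v | (2 : ℝ) ^ (-((s : ℤ) + k + 1)) ≤ |om v - om ω|}) ≤
      a + mi p (dig om (s + (k + 2))) c (fun ω => (dig om s ω, b ω)) / a := by
  classical
  have hp0 := hp.nonneg
  set F : Finset ℤ := Finset.Ico (0 : ℤ) (2 ^ (k + 2)) with hF
  set o : Ω → ℤ := blk om (k + 2) s with ho
  set g : Ω → ℤ × β := fun v => (dig om s v, b v) with hg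
  have h1 := tv_dec hp o c g F (fun ω _ => blk_mem om (k + 2) s ω) ha
  have h2 : mi p o c g ≤ mi p (dig om (s + (k + 2))) c g := by
    refine mi_mono_left hp0 _ _ _ _ fun ω ω' _ _ h => ?_
    have h' := Prod.ext_iff.mp h
    have e1 : dig om (s + (k + 2)) ω = dig om (s + (k + 2)) ω' := h'.1
    have e2 : dig om s ω = dig om s ω' := (Prod.ext_iff.mp h'.2).1
    show blk om (k + 2) s ω = blk om (k + 2) s ω'
    unfold blk
    rw [e1, e2]
  have h3 : mi p o c g / a ≤ mi p (dig om (s + (k + 2))) c g / a :=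
    div_le_div_of_nonneg_right h2 ha.le
  refine le_trans ?_ (h1.trans (add_le_add le_rfl h3))
  refine Finset.sum_le_sum fun ω _ => ?_
  rcases (hp0 ω).eq_or_lt with h0 | h0
  · rw [← h0, zero_mul, zero_mul]
  refine mul_le_mul_of_nonneg_left ?_ h0.le
  set q := Pool.Agent.H49.Ent.cond p g (g ω) with hq
  set q' := Pool.Agent.H49.Ent.cond p (fun v => (c v, g v)) (c ω, g ω) with hq'
  have hqn : ∀ v, 0 ≤ q v := cond_nonneg hp0 _ _
  have hqn' : ∀ v, 0 ≤ q' v := cond_nonneg hp0 _ _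
  have hTV : 0 ≤ ∑ s ∈ F, |law q o s - law q' o s| := Finset.sum_nonneg fun _ _ => abs_nonneg _
  refine max_le hTV ?_
  set F' := F.filter (fun x => 4 ≤ |x - o ω|) with hF'
  have a1 : Pr q {v | (2 : ℝ) ^ (-((s : ℤ) + k)) ≤ |om v - om ω|} ≤ ∑ x ∈ F', law q o x := by
    rw [← TI.Pr_eq_sum_law]
    refine Pr_mono_supp hqn fun v hv hv1 => ?_
    have hv2 := ((cond_pos_iff hp0 g (g ω) v).1 hv).2
    have hd : dig om s v = dig om s ω := (Prod.ext_iff.mp hv2).1
    show o v ∈ F'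
    rw [hF', Finset.mem_filter]
    exact ⟨blk_mem om (k + 2) s v, (far_blk om k s hd).1 hv1⟩
  have a2 : ∑ x ∈ F', law q' o x ≤
      Pr q' {v | (2 : ℝ) ^ (-((s : ℤ) + k + 1)) ≤ |om v - om ω|} := by
    rw [← TI.Pr_eq_sum_law]
    refine Pr_mono_supp hqn' fun v hv hv1 => ?_
    have hv2 := ((cond_pos_iff hp0 (fun v => (c v, g v)) (c ω, g ω) v).1 hv).2
    have hd : dig om s v = dig om s ω := (Prod.ext_iff.mp (Prod.ext_iff.mp hv2).2).1
    have hv3 : o v ∈ F' := hv1
    rw [hF', Finset.mem_filter] at hv3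
    exact (far_blk om k s hd).2 hv3.2
  have a3 : ∑ x ∈ F', law q o x - ∑ x ∈ F', law q' o x ≤ ∑ s ∈ F, |law q o s - law q' o s| := by
    rw [← Finset.sum_sub_distrib]
    refine (Finset.sum_le_sum fun x _ => le_abs_self _).trans ?_
    exact Finset.sum_le_sum_of_subset_of_nonneg (Finset.filter_subset _ _)
      fun _ _ _ => abs_nonneg _
  linarith

/-- **Activity in the cells of the mates.** -/
theorem act_tr {p : Ω → ℝ} (hp : IsLaw p) (om : Ω → ℝ) (b : Ω → β) (c : Ω → T) (k n : ℕ) {a : ℝ}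
    (ha : 0 < a) :
    ∑ s ∈ range n, ∑ ω, p ω * max 0 (Pr (Pool.Agent.H49.Ent.cond p (fun v => (dig om s v, b v))
        (dig om s ω, b ω)) {v | (2 : ℝ) ^ (-((s : ℤ) + k)) ≤ |om v - om ω|} -
      Pr (Pool.Agent.H49.Ent.cond p (fun v => (c v, (dig om s v, b v)))
        (c ω, (dig om s ω, b ω))) {v | (2 : ℝ) ^ (-((s : ℤ) + k + 1)) ≤ |om v - om ω|}) ≤
      a * n + (k + 2 : ℕ) * mi p (dig om (n + (k + 2))) c b / a := by
  have hp0 := hp.nonneg
  have h1 : ∑ s ∈ range n, mi p (dig om (s + (k + 2))) c (fun ω => (dig om s ω, b ω)) ≤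
      (k + 2 : ℕ) * mi p (dig om (n + (k + 2))) c b := by
    refine sum_classes _ (fun s => mi_nonneg hp0 _ _ _) (by omega) n _ fun j hj m hm => ?_
    have h2 := mi_sum_one hp0 (fun i => dig om (j + i * (k + 2))) c b (fun i ω ω' _ _ h => by
      refine dig_mono om (s := j + i * (k + 2)) (t := j + (i + 1) * (k + 2)) ?_
        (Prod.ext_iff.mp h).1
      have : (i + 1) * (k + 2) = i * (k + 2) + (k + 2) := by ring
      omega) m
    have h3 : mi p (dig om (j + m * (k + 2))) c b ≤ mi p (dig om (n + (k + 2))) c b := by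
      refine mi_mono_left hp0 _ _ _ _ fun ω ω' _ _ h => ?_
      exact dig_mono om hm (Prod.ext_iff.mp h).1
    refine le_trans (le_of_eq ?_) (h2.trans h3)
    refine Finset.sum_congr rfl fun i _ => ?_
    have e : j + i * (k + 2) + (k + 2) = j + (i + 1) * (k + 2) := by ring
    rw [e]
  calc _ ≤ ∑ s ∈ range n, (a + mi p (dig om (s + (k + 2))) c (fun ω => (dig om s ω, b ω)) / a) :=
        Finset.sum_le_sum fun s _ => act_one hp om b c k s ha
    _ = a * n + (∑ s ∈ range n,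
          mi p (dig om (s + (k + 2))) c (fun ω => (dig om s ω, b ω))) / a := by
        rw [Finset.sum_add_distrib, Finset.sum_const, Finset.card_range, nsmul_eq_mul,
          Finset.sum_div]
        ring
    _ ≤ _ := by
        have := div_le_div_of_nonneg_right h1 ha.le
        linarith

end

end Pool.OCM.M17
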