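import Pool.Agent.H17.OCM.Act
import Pool.Agent.H98.OCV.Stmts

/-!
# Theorem OCV, row REL: the displacement of the mates (helper17)
-/

set_option autoImplicit false

namespace Pool.OCV.M17

open Finset Real
open Pool.Agent.H49.Ent Pool.Agent.H32.Dense Pool.STK Pool.KAF
open Pool.OCM Pool.OCM.M17
open Pool.OC (sc)

theorem sc_spec {x : ℝ} (hx : x ≠ 0) : (2 : ℝ) ^ (-sc x) ≤ |x| ∧ |x| < (2 : ℝ) ^ (1 - sc x) := by
  have h0 : 0 < |x| := abs_pos.mpr hx
  constructor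
  · unfold sc
    rw [neg_neg]
    exact_mod_cast Int.zpow_log_le_self (b := 2) (by norm_num) h0
  · unfold sc
    have := Int.lt_zpow_succ_log_self (b := 2) (by norm_num) |x|
    rw [sub_neg_eq_add, add_comm]
    exact_mod_cast this

variable {c : ℕ}

theorem zc_lin (M : Fin c → Fin c → ℝ) (a b : ℝ) (u v : Fin c → ℝ) (i : Fin c) :
    zc M (fun j => a * u j + b * v j) i = a * zc M u i + b * zc M v i := by
  unfold zc
  rw [Finset.mul_sum, Finset.mul_sum, ← Finset.sum_add_distrib]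
  exact Finset.sum_congr rfl fun j _ => by ring

theorem zc_sub (M : Fin c → Fin c → ℝ) (u v : Fin c → ℝ) (i : Fin c) :
    zc M u i - zc M v i = zc M (fun j => u j - v j) i := by
  unfold zc
  rw [← Finset.sum_sub_distrib]
  exact Finset.sum_congr rfl fun j _ => by ring

theorem zc_abs (M : Fin c → Fin c → ℝ) (k : ℕ) (hM : ∀ i j, |M i j| ≤ 2 ^ k) {v : Fin c → ℝ}
    {b : ℝ} (hb : 0 ≤ b) (hv : ∀ j, |v j| ≤ b) (i : Fin c) : |zc M v i| ≤ c * (2 ^ k * b) := by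
  unfold zc
  refine (Finset.abs_sum_le_sum_abs _ _).trans ?_
  refine (Finset.sum_le_sum (g := fun _ => (2 : ℝ) ^ k * b) fun j _ => ?_).trans ?_
  · rw [abs_mul]
    exact mul_le_mul (hM i j) (hv j) (abs_nonneg _) (by positivity)
  · rw [Finset.sum_const, Finset.card_univ, Fintype.card_fin, nsmul_eq_mul]

/-- The difference of the normal positions at two times, from the digits at the time of the
mates and the velocity. -/
noncomputable def Zd (d : Dat c) (t tm tb : d.Tau) (Y : ℤ × (Fin c → ℤ)) (om : ℝ) (i : Fin c) :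
    ℝ :=
  (d.th t - d.th tb) * (Y.2 i / 2 ^ d.X + d.S tm i * om) -
    (d.S t i - d.S tb i) * (Y.1 / 2 ^ d.X - d.th tm * om) -
    (d.S t i * d.th t - d.S tb i * d.th tb) * om

theorem Zd_err (d : Dat c) (hth : ∀ t, 0 ≤ d.th t ∧ d.th t < 1) (hS : ∀ t i, |d.S t i| ≤ 1)
    (t tm tb : d.Tau) (l : d.Lam) (i : Fin c) :
    |2 ^ d.X * (Zd d t tm tb (d.Yt tm l) (d.omR l) i - d.ZR tb t l i)| ≤ 3 := by
  have hP : (0 : ℝ) < 2 ^ d.X := by positivity
  set Y := (d.Yt tm l).1 with hY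
  set B := (d.Yt tm l).2 i with hB
  have y1 : (Y : ℝ) ≤ 2 ^ d.X * d.yt tm l ∧ 2 ^ d.X * d.yt tm l < Y + 1 :=
    ⟨Int.floor_le _, Int.lt_floor_add_one _⟩
  have b1 : (B : ℝ) ≤ 2 ^ d.X * d.bt tm l i ∧ 2 ^ d.X * d.bt tm l i < B + 1 :=
    ⟨Int.floor_le _, Int.lt_floor_add_one _⟩
  have e : 2 ^ d.X * (Zd d t tm tb (d.Yt tm l) (d.omR l) i - d.ZR tb t l i) =
      (d.th t - d.th tb) * (B - 2 ^ d.X * d.bt tm l i) -
        (d.S t i - d.S tb i) * (Y - 2 ^ d.X * d.yt tm l) := by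
    unfold Zd Dat.ZR Dat.bt Dat.yt
    rw [← hY, ← hB]
    field_simp
    ring
  rw [e]
  have h1 : |d.th t - d.th tb| ≤ 1 := by
    rw [abs_le]
    constructor <;> linarith [(hth t).1, (hth t).2, (hth tb).1, (hth tb).2]
  have h2 : |d.S t i - d.S tb i| ≤ 2 := (abs_sub _ _).trans (by linarith [hS t i, hS tb i])
  have h3 : |(B : ℝ) - 2 ^ d.X * d.bt tm l i| ≤ 1 := by
    rw [abs_le]
    constructor <;> linarith [b1.1, b1.2]
  have h4 : |(Y : ℝ) - 2 ^ d.X * d.yt tm l| ≤ 1 := by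
    rw [abs_le]
    constructor <;> linarith [y1.1, y1.2]
  refine (abs_sub _ _).trans ?_
  rw [abs_mul, abs_mul]
  have h5 := mul_le_mul h1 h3 (abs_nonneg _) zero_le_one
  have h6 := mul_le_mul h2 h4 (abs_nonneg _) (by norm_num)
  linarith

theorem Zd_diff (d : Dat c) {t tm tb : d.Tau} (hm : d.th tm ≠ d.th t) (hb : d.th tb ≠ d.th t)
    (Y : ℤ × (Fin c → ℤ)) (o o' : ℝ) (i : Fin c) :
    Zd d t tm tb Y o i - Zd d t tm tb Y o' i =
      -((o - o') * ((d.th tm - d.th t) * (d.th tb - d.th t))) * d.chi t tm i +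
      -((o - o') * ((d.th tb - d.th t) * ((d.th tm - d.th t) - (d.th tb - d.th t)))) *
        d.chi t tb i := by
  have h1 : d.chi t tm i * (d.th tm - d.th t) = d.S tm i - d.S t i := by
    unfold Dat.chi
    exact div_mul_cancel₀ _ (sub_ne_zero.mpr hm)
  have h2 : d.chi t tb i * (d.th tb - d.th t) = d.S tb i - d.S t i := by
    unfold Dat.chi
    exact div_mul_cancel₀ _ (sub_ne_zero.mpr hb)
  unfold Zd
  linear_combination ((o - o') * (d.th tb - d.th t)) * h1 +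
    ((o - o') * (d.th tm - d.th tb)) * h2

theorem Zd_zc (d : Dat c) (M : Fin c → Fin c → ℝ) {t tm tb : d.Tau} (hm : d.th tm ≠ d.th t)
    (hb : d.th tb ≠ d.th t) (Y : ℤ × (Fin c → ℤ)) (o o' : ℝ) (i : Fin c) :
    zc M (Zd d t tm tb Y o) i - zc M (Zd d t tm tb Y o') i =
      -((o - o') * ((d.th tm - d.th t) * (d.th tb - d.th t))) * zc M (d.chi t tm) i +
      -((o - o') * ((d.th tb - d.th t) * ((d.th tm - d.th t) - (d.th tb - d.th t)))) *
        zc M (d.chi t tb) i := by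
  rw [zc_sub, ← zc_lin]
  congr 1
  funext j
  exact Zd_diff d hm hb Y o o' j

/-- The mates do not go far. -/
theorem small (d : Dat c) (M : Fin c → Fin c → ℝ) {kz g : ℕ} {t tm tb : d.Tau}
    (hA : Adm d M kz g t tm tb) (Y : ℤ × (Fin c → ℤ)) {o o' : ℝ} {s : ℤ}
    (ho : |o - o'| ≤ (2 : ℝ) ^ (-s)) (i : Fin c) :
    |zc M (Zd d t tm tb Y o) i - zc M (Zd d t tm tb Y o') i| ≤
      (2 : ℝ) ^ (((kz + 4 : ℕ) : ℤ) - (s + mus d t tm tb)) := by
  obtain ⟨hb, hbm, hcm, hcb⟩ := hA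
  set τm := d.th tm - d.th t with hτm
  set τb := d.th tb - d.th t with hτb
  have hb0 : τb ≠ 0 := sub_ne_zero.mpr hb
  have hbm1 : |τb| ≤ |τm| := by
    refine hbm.trans ?_
    have : (2 : ℝ) ^ (-((kz : ℤ) + g + 3)) ≤ 1 := by
      rw [zpow_neg]
      refine inv_le_one_of_one_le₀ (one_le_zpow₀ (by norm_num) (by positivity))
    exact mul_le_of_le_one_left (abs_nonneg _) this
  have hm0 : τm ≠ 0 := by
    intro h
    rw [h, abs_zero] at hbm1
    exact hb0 (abs_eq_zero.mp (le_antisymm hbm1 (abs_nonneg _)))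
  have hm : d.th tm ≠ d.th t := fun h => hm0 (by rw [hτm, h, sub_self])
  rw [Zd_zc d M hm hb Y o o' i, ← hτm, ← hτb]
  have k0 : (0 : ℝ) < 2 ^ kz := by positivity
  have a1 : |-((o - o') * (τm * τb)) * zc M (d.chi t tm) i| ≤
      |o - o'| * (|τm| * |τb|) * 2 ^ kz := by
    rw [abs_mul, abs_neg, abs_mul, abs_mul]
    exact mul_le_mul_of_nonneg_left (hcm i) (by positivity)
  have a2 : |-((o - o') * (τb * (τm - τb))) * zc M (d.chi t tb) i| ≤
      |o - o'| * (|τm| * |τb|) * (2 * 2 ^ kz) := by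
    rw [abs_mul, abs_neg, abs_mul, abs_mul]
    have h1 : |τm - τb| ≤ 2 * |τm| := (abs_sub _ _).trans (by linarith)
    calc |o - o'| * (|τb| * |τm - τb|) * |zc M (d.chi t tb) i|
        ≤ |o - o'| * (|τb| * (2 * |τm|)) * 2 ^ kz := by
          refine mul_le_mul ?_ (hcb i) (abs_nonneg _) (by positivity)
          exact mul_le_mul_of_nonneg_left (mul_le_mul_of_nonneg_left h1 (abs_nonneg _))
            (abs_nonneg _)
      _ = |o - o'| * (|τm| * |τb|) * (2 * 2 ^ kz) := by ring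
  refine (abs_add_le _ _).trans ((add_le_add a1 a2).trans ?_)
  have s1 := (sc_spec hm0).2.le
  have s2 := (sc_spec hb0).2.le
  have h3 : |o - o'| * (|τm| * |τb|) ≤
      (2 : ℝ) ^ (-s) * ((2 : ℝ) ^ (1 - sc τm) * (2 : ℝ) ^ (1 - sc τb)) :=
    mul_le_mul ho (mul_le_mul s1 s2 (abs_nonneg _) (by positivity)) (by positivity)
      (by positivity)
  have h4 : (2 : ℝ) ^ (((kz + 4 : ℕ) : ℤ) - (s + mus d t tm tb)) =
      (2 : ℝ) ^ (-s) * ((2 : ℝ) ^ (1 - sc τm) * (2 : ℝ) ^ (1 - sc τb)) * (4 * 2 ^ kz) := by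
    have e1 : (4 : ℝ) * 2 ^ kz = (2 : ℝ) ^ ((kz : ℤ) + 2) := by
      rw [zpow_add₀ (by norm_num), zpow_natCast]
      norm_num
      ring
    rw [e1, ← zpow_add₀ (by norm_num), ← zpow_add₀ (by norm_num), ← zpow_add₀ (by norm_num)]
    congr 1
    unfold mus
    rw [← hτm, ← hτb]
    push_cast
    ring
  rw [h4]
  have h5 := mul_le_mul_of_nonneg_right h3 (by positivity : (0 : ℝ) ≤ 4 * 2 ^ kz)
  have h6 : |o - o'| * (|τm| * |τb|) * 2 ^ kz + |o - o'| * (|τm| * |τb|) * (2 * 2 ^ kz) ≤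
      |o - o'| * (|τm| * |τb|) * (4 * 2 ^ kz) := by
    have : 0 ≤ |o - o'| * (|τm| * |τb|) * 2 ^ kz := by positivity
    linarith
  exact h6.trans h5

/-- The mates go far in the direction of the covector. -/
theorem large (d : Dat c) (M : Fin c → Fin c → ℝ) {kz g : ℕ} {t tm tb : d.Tau}
    (hA : Adm d M kz g t tm tb) (C : Fin c → ℝ) (hC : ∑ i, |C i| = 1)
    (hg : (2 : ℝ) ^ (-(g : ℤ)) < |∑ i, C i * (zc M (d.chi t tm) i + zc M (d.chi t tb) i)|)
    (Y : ℤ × (Fin c → ℤ)) {o o' : ℝ} {s : ℤ} (ho : (2 : ℝ) ^ (-s) ≤ |o - o'|) :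
    (2 : ℝ) ^ (-(s + mus d t tm tb + ((g + 1 : ℕ) : ℤ))) ≤
      |∑ i, C i * (zc M (Zd d t tm tb Y o) i - zc M (Zd d t tm tb Y o') i)| := by
  obtain ⟨hb, hbm, hcm, hcb⟩ := hA
  set τm := d.th tm - d.th t with hτm
  set τb := d.th tb - d.th t with hτb
  have hb0 : τb ≠ 0 := sub_ne_zero.mpr hb
  have hbm1 : |τb| ≤ |τm| := by
    refine hbm.trans ?_
    have : (2 : ℝ) ^ (-((kz : ℤ) + g + 3)) ≤ 1 := by
      rw [zpow_neg]
      refine inv_le_one_of_one_le₀ (one_le_zpow₀ (by norm_num) (by positivity))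
    exact mul_le_of_le_one_left (abs_nonneg _) this
  have hm0 : τm ≠ 0 := by
    intro h
    rw [h, abs_zero] at hbm1
    exact hb0 (abs_eq_zero.mp (le_antisymm hbm1 (abs_nonneg _)))
  have hm : d.th tm ≠ d.th t := fun h => hm0 (by rw [hτm, h, sub_self])
  set Sg := ∑ i, C i * (zc M (d.chi t tm) i + zc M (d.chi t tb) i) with hSg
  set Sb := ∑ i, C i * zc M (d.chi t tb) i with hSb
  have e : ∑ i, C i * (zc M (Zd d t tm tb Y o) i - zc M (Zd d t tm tb Y o') i) =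
      -((o - o') * τb * (τm * Sg - τb * Sb)) := by
    have h1 : ∀ i, C i * (zc M (Zd d t tm tb Y o) i - zc M (Zd d t tm tb Y o') i) =
        -((o - o') * τb * τm) * (C i * (zc M (d.chi t tm) i + zc M (d.chi t tb) i)) +
          (o - o') * τb * τb * (C i * zc M (d.chi t tb) i) := by
      intro i
      rw [Zd_zc d M hm hb Y o o' i, ← hτm, ← hτb]
      ring
    rw [Finset.sum_congr rfl fun i _ => h1 i, Finset.sum_add_distrib, ← Finset.mul_sum,
      ← Finset.mul_sum, ← hSg, ← hSb]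
    ring
  rw [e, abs_neg, abs_mul, abs_mul]
  have k0 : (0 : ℝ) < 2 ^ kz := by positivity
  have b1 : |Sb| ≤ 2 ^ kz := by
    rw [hSb]
    refine (Finset.abs_sum_le_sum_abs _ _).trans ?_
    calc ∑ i, |C i * zc M (d.chi t tb) i| ≤ ∑ i, |C i| * 2 ^ kz := by
          refine Finset.sum_le_sum fun i _ => ?_
          rw [abs_mul]
          exact mul_le_mul_of_nonneg_left (hcb i) (abs_nonneg _)
      _ = 2 ^ kz := by rw [← Finset.sum_mul, hC, one_mul]
  have b2 : |τb * Sb| ≤ |τm| * (2 : ℝ) ^ (-((g : ℤ) + 3)) := by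
    rw [abs_mul]
    calc |τb| * |Sb| ≤ ((2 : ℝ) ^ (-((kz : ℤ) + g + 3)) * |τm|) * 2 ^ kz :=
          mul_le_mul hbm b1 (abs_nonneg _) (by positivity)
      _ = |τm| * ((2 : ℝ) ^ (-((kz : ℤ) + g + 3)) * 2 ^ kz) := by ring
      _ = |τm| * (2 : ℝ) ^ (-((g : ℤ) + 3)) := by
          have e1 : -((kz : ℤ) + g + 3) + (kz : ℤ) = -((g : ℤ) + 3) := by ring
          rw [← zpow_natCast (2 : ℝ) kz, ← zpow_add₀ (by norm_num), e1]
  have g3 : (2 : ℝ) ^ (-(g : ℤ)) = 8 * (2 : ℝ) ^ (-((g : ℤ) + 3)) := by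
    have e1 : (3 : ℤ) + -((g : ℤ) + 3) = -(g : ℤ) := by ring
    rw [show (8 : ℝ) = (2 : ℝ) ^ (3 : ℤ) by norm_num, ← zpow_add₀ (by norm_num), e1]
  have g1 : (2 : ℝ) ^ (-((g : ℤ) + 1)) = 4 * (2 : ℝ) ^ (-((g : ℤ) + 3)) := by
    have e1 : (2 : ℤ) + -((g : ℤ) + 3) = -((g : ℤ) + 1) := by ring
    rw [show (4 : ℝ) = (2 : ℝ) ^ (2 : ℤ) by norm_num, ← zpow_add₀ (by norm_num), e1]
  have hp3 : (0 : ℝ) < (2 : ℝ) ^ (-((g : ℤ) + 3)) := by positivity
  have b3 : |τm| * (2 : ℝ) ^ (-((g : ℤ) + 1)) ≤ |τm * Sg - τb * Sb| := by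
    have h1 : |τm * Sg| - |τb * Sb| ≤ |τm * Sg - τb * Sb| := abs_sub_abs_le_abs_sub _ _
    have h2 : |τm| * (8 * (2 : ℝ) ^ (-((g : ℤ) + 3))) ≤ |τm * Sg| := by
      rw [abs_mul, ← g3]
      exact mul_le_mul_of_nonneg_left hg.le (abs_nonneg _)
    rw [g1]
    have h3 : 0 ≤ |τm| * (2 : ℝ) ^ (-((g : ℤ) + 3)) := by positivity
    linarith
  have s1 := (sc_spec hm0).1
  have s2 := (sc_spec hb0).1
  calc (2 : ℝ) ^ (-(s + mus d t tm tb + ((g + 1 : ℕ) : ℤ)))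
      = (2 : ℝ) ^ (-s) * (2 : ℝ) ^ (-sc τb) * ((2 : ℝ) ^ (-sc τm) * (2 : ℝ) ^ (-((g : ℤ) + 1))) := by
        rw [← zpow_add₀ (by norm_num), ← zpow_add₀ (by norm_num), ← zpow_add₀ (by norm_num)]
        congr 1
        unfold mus
        rw [← hτm, ← hτb]
        push_cast
        ring
    _ ≤ |o - o'| * |τb| * (|τm| * (2 : ℝ) ^ (-((g : ℤ) + 1))) := by
        refine mul_le_mul (mul_le_mul ho s2 (by positivity) (abs_nonneg _))
          (mul_le_mul_of_nonneg_right s1 (by positivity)) (by positivity) (by positivity)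
    _ ≤ |o - o'| * |τb| * |τm * Sg - τb * Sb| :=
        mul_le_mul_of_nonneg_left b3 (by positivity)

/-- The scales are positive. -/
theorem mus_pos (d : Dat c) (hth : ∀ t, 0 ≤ d.th t ∧ d.th t < 1) (M : Fin c → Fin c → ℝ)
    {kz g : ℕ} {t tm tb : d.Tau} (hA : Adm d M kz g t tm tb) : 0 < mus d t tm tb := by
  obtain ⟨hb, hbm, -, -⟩ := hA
  have hb0 : d.th tb - d.th t ≠ 0 := sub_ne_zero.mpr hb
  have hm0 : d.th tm - d.th t ≠ 0 := by
    intro h
    rw [h, abs_zero, mul_zero] at hbm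
    exact hb0 (abs_eq_zero.mp (le_antisymm hbm (abs_nonneg _)))
  have key : ∀ u : d.Tau, d.th u - d.th t ≠ 0 → 0 < sc (d.th u - d.th t) := by
    intro u hu
    have h1 := (sc_spec hu).1
    have h2 : |d.th u - d.th t| < 1 := by
      rw [abs_lt]
      constructor <;> linarith [(hth t).1, (hth t).2, (hth u).1, (hth u).2]
    have h3 : (2 : ℝ) ^ (-sc (d.th u - d.th t)) < (2 : ℝ) ^ (0 : ℤ) := by
      rw [zpow_zero]
      linarith
    have h4 := (zpow_lt_zpow_iff_right₀ (by norm_num : (1 : ℝ) < 2)).mp h3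
    omega
  unfold mus
  have h1 := key tm hm0
  have h2 := key tb hb0
  omega

end Pool.OCV.M17
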