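import Pool.Agent.H86.OC.ROKa

/-!
# Theorem OC in codimension `c`, row REL: mutual informations given a context (helper17)
-/

set_option autoImplicit false

namespace Pool.OCM.M17

open Finset Real
open Pool.Agent.H49.Ent Pool.Agent.H32.Dense Pool.STK Pool.KAF Pool.KAL Pool.KX
open Pool.OC.RS

section

variable {Ω S T U V' θ β : Type} [Fintype Ω]

/-- A part of the times in the context. -/
theorem mi_drop {p : Ω → ℝ} (hp : ∀ ω, 0 ≤ p ω) {L : Ω → S} {x : Ω → T} {t : Ω → θ} {b : Ω → β}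
    (hx : Det p x t) : mi p L x (fun ω => (t ω, b ω)) ≤ mi p L x b := by
  have h1 := mi_chain hp L t x b
  have h2 := mi_mono hp L x (fun ω => (t ω, x ω)) b (fun ω ω' a c h => by
    have h' := (Prod.ext_iff.mp h).1
    exact Prod.ext (hx ω ω' a c h') h')
  have h3 := mi_nonneg hp L t b
  linarith

/-- A function of the line in the place of the line. -/
theorem mi_lineb {p : Ω → ℝ} (hp : ∀ ω, 0 ≤ p ω) {L : Ω → S} {x : Ω → T} {x₀ : Ω → U} {b : Ω → β}
    {V : Ω → V'} (hx : Det p x x₀) (hV : Det p (fun ω => (L ω, (x₀ ω, b ω))) V) :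
    mi p V x (fun ω => (x₀ ω, b ω)) ≤ mi p L x b := by
  have h5 := mi_mono_left hp L V x (fun ω => (x₀ ω, b ω)) hV
  have h6 := mi_drop hp (L := L) (x := x) (t := x₀) (b := b) hx
  linarith

/-- The position at a time and the digits of the line, given all the times. -/
theorem mi_posb {p : Ω → ℝ} (hp : ∀ ω, 0 ≤ p ω) {L : Ω → S} {x : Ω → T} {t : Ω → θ} {b : Ω → β}
    {V : Ω → V'} {N : Ω → U} (hx : Det p x t) (hV : Det p L V)
    (hN : Det p (fun ω => (L ω, t ω)) N) :
    mi p N V (fun ω => (x ω, b ω)) ≤ mi p N V (fun ω => (t ω, b ω)) + mi p L x b := by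
  -- `I(N; V | x, b) ≤ I(N; (V, x) | t, b) = I(N; V | t, b) + I(N; x | V, t, b)`
  have h1 := mi_chain hp N x V (fun ω => (t ω, b ω))
  have h2 := mi_congr hp N V (b := fun ω => (x ω, (t ω, b ω))) (b' := fun ω => (x ω, b ω))
    (fun ω ω' _ _ h => by
      have h' := Prod.ext_iff.mp h
      exact Prod.ext h'.1 (Prod.ext_iff.mp h'.2).2)
    (fun ω ω' a c h => by
      have h' := Prod.ext_iff.mp h
      exact Prod.ext h'.1 (Prod.ext (hx ω ω' a c h'.1) h'.2))
  have h3 := mi_nonneg hp N x (fun ω => (t ω, b ω))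
  have h4 := mi_chain hp N V x (fun ω => (t ω, b ω))
  have h5 := mi_mono hp N (fun ω => (V ω, x ω)) (fun ω => (x ω, V ω)) (fun ω => (t ω, b ω))
    (fun ω ω' _ _ h => by
      have h' := Prod.ext_iff.mp (Prod.ext_iff.mp h).1
      exact Prod.ext h'.2 h'.1)
  -- `I(N; x | V, t, b) ≤ I(L; x | V, t, b) ≤ I(L; x | t, b) ≤ I(L; x | b)`
  have h6 := mi_mono_left hp L N x (fun ω => (V ω, (t ω, b ω))) (fun ω ω' a c h => by
    have h' := Prod.ext_iff.mp h
    exact hN ω ω' a c (Prod.ext h'.1 (Prod.ext_iff.mp (Prod.ext_iff.mp h'.2).2).1))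
  have h7 := mi_chain hp x V L (fun ω => (t ω, b ω))
  have h8 := mi_mono hp x L (fun ω => (V ω, L ω)) (fun ω => (t ω, b ω)) (fun ω ω' a c h => by
    have h' := (Prod.ext_iff.mp h).1
    exact Prod.ext (hV ω ω' a c h') h')
  have h9 := mi_nonneg hp x V (fun ω => (t ω, b ω))
  have h10 := mi_comm hp L x (fun ω => (V ω, (t ω, b ω)))
  have h11 := mi_comm hp L x (fun ω => (t ω, b ω))
  have h12 := mi_drop hp (L := L) (x := x) (t := t) (b := b) hx
  linarith

/-- The position at a time, given the reference context: all the times and the context. -/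
theorem mi_timesb {p : Ω → ℝ} (hp : ∀ ω, 0 ≤ p ω) {L : Ω → S} {x : Ω → T} {t : Ω → θ} {b : Ω → β}
    {N : Ω → U} (hx : Det p x t) (hN : Det p (fun ω => (L ω, t ω)) N) :
    mi p N (fun ω => (x ω, b ω)) t ≤ mi p N b t + mi p L x b := by
  have h1 := mi_chain hp N b x t
  have h2 := mi_mono hp N (fun ω => (b ω, x ω)) (fun ω => (x ω, b ω)) t (fun ω ω' _ _ h => by
    have h' := Prod.ext_iff.mp (Prod.ext_iff.mp h).1
    exact Prod.ext h'.2 h'.1)
  have h3 := mi_mono_left hp L N x (fun ω => (b ω, t ω)) (fun ω ω' a c h => by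
    have h' := Prod.ext_iff.mp h
    exact hN ω ω' a c (Prod.ext h'.1 (Prod.ext_iff.mp h'.2).2))
  have h4 := mi_congr hp L x (b := fun ω => (b ω, t ω)) (b' := fun ω => (t ω, b ω))
    (fun ω ω' _ _ h => by
      have h' := Prod.ext_iff.mp h
      exact Prod.ext h'.2 h'.1)
    (fun ω ω' _ _ h => by
      have h' := Prod.ext_iff.mp h
      exact Prod.ext h'.2 h'.1)
  have h5 := mi_drop hp (L := L) (x := x) (t := t) (b := b) hx
  linarith

/-- Data processing on the left, with a part of the context. -/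
theorem mi_left {p : Ω → ℝ} (hp : ∀ ω, 0 ≤ p ω) {N : Ω → S} {N' : Ω → T} {V : Ω → V'}
    {x : Ω → U} {y : Ω → θ} (hxy : Det p x y) (h : Det p (fun ω => (N ω, y ω)) N') :
    mi p N' V x ≤ mi p N V x :=
  mi_mono_left hp N N' V x fun ω ω' a c hh => by
    have h' := Prod.ext_iff.mp hh
    exact h ω ω' a c (Prod.ext h'.1 (hxy ω ω' a c h'.2))

end

end Pool.OCM.M17
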