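import Pool.Agent.H17.OCM.Geo
import Pool.Agent.H17.OCM.ActS

/-!
# Theorem OCV, row REL (helper17)
-/

set_option autoImplicit false

namespace Pool.OCV.M17

open Finset Real
open Pool.Agent.H49.Ent Pool.Agent.H32.Dense Pool.STK Pool.KAF Pool.KAL Pool.KX
open Pool.OCM Pool.OCM.M17 Pool.OC.RS
open Pool.OC (sc)

section dig

variable {Ω : Type}

/-- The digits at integer depths. -/
noncomputable def digZ (om : Ω → ℝ) (s : ℤ) (ω : Ω) : ℤ := ⌊(2 : ℝ) ^ s * om ω⌋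

/-- The next `K` digits. -/
noncomputable def blkZ (om : Ω → ℝ) (K : ℕ) (s : ℤ) (ω : Ω) : ℤ :=
  digZ om (s + K) ω - 2 ^ K * digZ om s ω

theorem digZ_nat (om : Ω → ℝ) (s : ℕ) (ω : Ω) : digZ om s ω = dig om s ω := by
  unfold digZ dig
  rw [zpow_natCast]

theorem blkZ_mem (om : Ω → ℝ) (K : ℕ) (s : ℤ) (ω : Ω) :
    blkZ om K s ω ∈ Finset.Ico (0 : ℤ) (2 ^ K) := by
  have h1 : (digZ om s ω : ℝ) ≤ (2 : ℝ) ^ s * om ω ∧ (2 : ℝ) ^ s * om ω < digZ om s ω + 1 :=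
    ⟨Int.floor_le _, Int.lt_floor_add_one _⟩
  have h2 : (digZ om (s + K) ω : ℝ) ≤ (2 : ℝ) ^ (s + K) * om ω ∧
      (2 : ℝ) ^ (s + K) * om ω < digZ om (s + K) ω + 1 :=
    ⟨Int.floor_le _, Int.lt_floor_add_one _⟩
  have hK : (0 : ℝ) < 2 ^ K := by positivity
  rw [Finset.mem_Ico]
  have e1 : (2 : ℝ) ^ (s + K) * om ω = 2 ^ K * ((2 : ℝ) ^ s * om ω) := by
    rw [zpow_add₀ (by norm_num), zpow_natCast]
    ring
  have a1 : (2 : ℝ) ^ K * (digZ om s ω : ℝ) ≤ (2 : ℝ) ^ (s + K) * om ω := by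
    rw [e1]
    exact mul_le_mul_of_nonneg_left h1.1 hK.le
  have a2 : (2 : ℝ) ^ (s + K) * om ω < 2 ^ K * (digZ om s ω : ℝ) + 2 ^ K := by
    rw [e1]
    have := mul_lt_mul_of_pos_left h1.2 hK
    linarith
  constructor
  · have : (((2 : ℤ) ^ K * digZ om s ω : ℤ) : ℝ) < ((digZ om (s + K) ω + 1 : ℤ) : ℝ) := by
      push_cast
      linarith [h2.2]
    have h3 : (2 : ℤ) ^ K * digZ om s ω < digZ om (s + K) ω + 1 := by exact_mod_cast this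
    unfold blkZ
    linarith
  · have : ((digZ om (s + K) ω : ℤ) : ℝ) < ((2 ^ K * digZ om s ω + 2 ^ K : ℤ) : ℝ) := by
      push_cast
      linarith [h2.1]
    have h3 : digZ om (s + K) ω < 2 ^ K * digZ om s ω + 2 ^ K := by exact_mod_cast this
    unfold blkZ
    linarith

theorem digZ_step (om : Ω → ℝ) (K : ℕ) (s : ℤ) {ω ω' : Ω}
    (h : digZ om (s + K) ω = digZ om (s + K) ω') : digZ om s ω = digZ om s ω' := by
  have e : ∀ v, digZ om s v = digZ om (s + K) v / 2 ^ K := by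
    intro v
    have h1 := Finset.mem_Ico.mp (blkZ_mem om K s v)
    unfold blkZ at h1
    have hK : (0 : ℤ) < 2 ^ K := by positivity
    symm
    rw [Int.ediv_eq_iff_of_pos hK]
    constructor
    · linarith [h1.1]
    · linarith [h1.2]
  rw [e, e, h]

theorem digZ_near (om : Ω → ℝ) (s : ℤ) {ω ω' : Ω} (h : digZ om s ω = digZ om s ω') :
    |om ω - om ω'| ≤ (2 : ℝ) ^ (-s) := by
  have h1 : (digZ om s ω : ℝ) ≤ (2 : ℝ) ^ s * om ω ∧ (2 : ℝ) ^ s * om ω < digZ om s ω + 1 :=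
    ⟨Int.floor_le _, Int.lt_floor_add_one _⟩
  have h2 : (digZ om s ω' : ℝ) ≤ (2 : ℝ) ^ s * om ω' ∧ (2 : ℝ) ^ s * om ω' < digZ om s ω' + 1 :=
    ⟨Int.floor_le _, Int.lt_floor_add_one _⟩
  rw [← h] at h2
  have hP : (0 : ℝ) < (2 : ℝ) ^ s := by positivity
  rw [zpow_neg, ← one_div, le_div_iff₀ hP, ← abs_of_pos hP, ← abs_mul, abs_le]
  constructor <;> nlinarith [h1.1, h1.2, h2.1, h2.2]

end dig

section push

variable {Ω Om S : Type} [Fintype Ω] [Fintype Om]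

theorem Pr_cond_push {Q : Ω → ℝ} {P : Om → ℝ} {w : Ω → Om} (h : ∀ ω, law Q w ω = P ω)
    (f : Om → S) (s : S) (E : Set Om) :
    Pr (Pool.Agent.H49.Ent.cond Q (fun v => f (w v)) s) {v | w v ∈ E} =
      Pr (Pool.Agent.H49.Ent.cond P f s) E := by
  classical
  have h1 : {v | w v ∈ E} = {v | w v ∈ (univ.filter fun ω => ω ∈ E)} := by
    ext v
    simp
  rw [h1, TI.Pr_eq_sum_law, Pool.KAF.Pr_eq, Finset.sum_filter]
  refine Finset.sum_congr rfl fun ω _ => ?_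
  by_cases hω : ω ∈ E
  · rw [if_pos hω, if_pos hω, cond_push h]
  · rw [if_neg hω, if_neg hω]

end push

variable {c : ℕ}

theorem V_yt (d : Dat c) {l l' : d.Lam} (h : d.V l = d.V l') (t : d.Tau) :
    d.Yt t l = d.Yt t l' ∧ d.omR l = d.omR l' := by
  have h0 : d.y l = d.y l' := (Prod.ext_iff.mp h).1
  have h1 : d.om l = d.om l' := (Prod.ext_iff.mp (Prod.ext_iff.mp h).2).1
  have h2 : d.be l = d.be l' := (Prod.ext_iff.mp (Prod.ext_iff.mp h).2).2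
  have e1 : d.omR l = d.omR l' := by
    unfold Dat.omR
    rw [h1]
  have e0 : d.yR l = d.yR l' := by
    unfold Dat.yR
    rw [h0]
  have e2 : ∀ i, d.beR l i = d.beR l' i := fun i => by
    unfold Dat.beR
    rw [h2]
  refine ⟨?_, e1⟩
  unfold Dat.Yt Dat.yt Dat.bt
  rw [e0, e1]
  simp only [e2]

/-- Rounding errors. -/
theorem pos_err (d : Dat c) {A kmax : ℕ} (hd : d.OK A) (M : Fin c → Fin c → ℝ) (hM : ZOK kmax M)
    {ω₀ ω₁ : d.Om} (tm : d.Tau) (h0 : 0 < d.P ω₀) (h1 : 0 < d.P ω₁) (hL : d.L ω₀ = d.L ω₁)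
    (i : Fin c) :
    |((nz M (d.N ω₁) i : ℤ) : ℝ) - nz M (d.N ω₀) i - 2 ^ d.X *
      (zc M (Zd d (d.T ω₁) tm (d.T ω₀) (d.Yt tm (d.L ω₁)) (d.omR (d.L ω₁))) i +
        zc M (fun j => (d.kn (d.B ω₁) (d.T ω₁) j - d.kn (d.B ω₁) (d.T ω₀) j) / 2 ^ d.X) i)| ≤
      2 ^ (kmax + c + 4) := by
  have hP : (0 : ℝ) < 2 ^ d.X := by positivity
  set e : Fin c → ℝ := fun j => ((d.N ω₁ j : ℝ) - d.N ω₀ j) - 2 ^ d.X *
    (Zd d (d.T ω₁) tm (d.T ω₀) (d.Yt tm (d.L ω₁)) (d.omR (d.L ω₁)) j +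
      (d.kn (d.B ω₁) (d.T ω₁) j - d.kn (d.B ω₁) (d.T ω₀) j) / 2 ^ d.X) with he
  have he1 : ∀ j, |e j| ≤ 11 := by
    intro j
    have hB : d.B ω₀ = d.B ω₁ := by
      unfold Dat.B
      rw [hL]
    have h2 := hd.hZ ω₀ ω₁ h0 h1 hL j
    rw [hB, hL] at h2
    have h3 := Zd_err d hd.hth hd.hS (d.T ω₁) tm (d.T ω₀) (d.L ω₁) j
    have h4 : e j = (((d.N ω₁ j : ℝ) - d.N ω₀ j) - (2 ^ d.X * d.ZR (d.T ω₀) (d.T ω₁) (d.L ω₁) j +
        (d.kn (d.B ω₁) (d.T ω₁) j - d.kn (d.B ω₁) (d.T ω₀) j))) -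
        2 ^ d.X * (Zd d (d.T ω₁) tm (d.T ω₀) (d.Yt tm (d.L ω₁)) (d.omR (d.L ω₁)) j -
          d.ZR (d.T ω₀) (d.T ω₁) (d.L ω₁) j) := by
      simp only [he]
      field_simp
      ring
    rw [h4]
    refine (abs_sub _ _).trans ?_
    linarith
  have h5 := zc_abs M kmax hM.1 (b := 11) (by norm_num) he1 i
  have e1 : zc M e i = zc M (fun j => (d.N ω₁ j : ℝ)) i - zc M (fun j => (d.N ω₀ j : ℝ)) i -
      2 ^ d.X * (zc M (Zd d (d.T ω₁) tm (d.T ω₀) (d.Yt tm (d.L ω₁)) (d.omR (d.L ω₁))) i +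
        zc M (fun j => (d.kn (d.B ω₁) (d.T ω₁) j - d.kn (d.B ω₁) (d.T ω₀) j) / 2 ^ d.X) i) := by
    unfold zc
    rw [← Finset.sum_sub_distrib, ← Finset.sum_add_distrib, Finset.mul_sum,
      ← Finset.sum_sub_distrib]
    refine Finset.sum_congr rfl fun j _ => ?_
    simp only [he]
    ring
  set a := zc M (fun j => (d.N ω₁ j : ℝ)) i with ha
  set b := zc M (fun j => (d.N ω₀ j : ℝ)) i with hb
  have f1 : ((nz M (d.N ω₁) i : ℤ) : ℝ) ≤ a ∧ a < nz M (d.N ω₁) i + 1 :=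
    ⟨Int.floor_le _, Int.lt_floor_add_one _⟩
  have f0 : ((nz M (d.N ω₀) i : ℤ) : ℝ) ≤ b ∧ b < nz M (d.N ω₀) i + 1 :=
    ⟨Int.floor_le _, Int.lt_floor_add_one _⟩
  have h6 : |((nz M (d.N ω₁) i : ℤ) : ℝ) - nz M (d.N ω₀) i - (a - b)| ≤ 1 := by
    rw [abs_le]
    constructor <;> linarith [f1.1, f1.2, f0.1, f0.2]
  set W := 2 ^ d.X * (zc M (Zd d (d.T ω₁) tm (d.T ω₀) (d.Yt tm (d.L ω₁)) (d.omR (d.L ω₁))) i +
        zc M (fun j => (d.kn (d.B ω₁) (d.T ω₁) j - d.kn (d.B ω₁) (d.T ω₀) j) / 2 ^ d.X) i) with hW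
  have h7 : ((nz M (d.N ω₁) i : ℤ) : ℝ) - nz M (d.N ω₀) i - W =
      (((nz M (d.N ω₁) i : ℤ) : ℝ) - nz M (d.N ω₀) i - (a - b)) + zc M e i := by
    rw [e1]
    ring
  rw [h7]
  refine (abs_add_le _ _).trans ((add_le_add h6 h5).trans ?_)
  have hc : (c : ℝ) + 1 ≤ 2 ^ c := by
    have := Nat.lt_two_pow_self (n := c)
    have h8 : c + 1 ≤ 2 ^ c := this
    exact_mod_cast h8
  have hk : (1 : ℝ) ≤ 2 ^ kmax := one_le_pow₀ (by norm_num)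
  have h9 : (2 : ℝ) ^ (kmax + c + 4) = 16 * (2 ^ kmax * 2 ^ c) := by
    rw [pow_add, pow_add]
    norm_num
    ring
  rw [h9]
  have h10 : (2 : ℝ) ^ kmax * ((c : ℝ) + 1) ≤ 2 ^ kmax * 2 ^ c :=
    mul_le_mul_of_nonneg_left hc (by positivity)
  have hc0 : (0 : ℝ) ≤ c := Nat.cast_nonneg c
  nlinarith [mul_nonneg hc0 (by linarith : (0 : ℝ) ≤ 2 ^ kmax)]

end Pool.OCV.M17
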