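import Pool.Agent.H17.OCM.Rel

/-!
# Theorem OCV, row REL: the mutual informations of the tuple (helper17)
-/

set_option autoImplicit false

namespace Pool.OCV.M17

open Finset Real
open Pool.Agent.H49.Ent Pool.Agent.H32.Dense Pool.STK Pool.KAF Pool.KAL Pool.KX
open Pool.OCM Pool.OCM.M17 Pool.OC.RS
open Pool.OC (sc)

variable {c : ℕ}

/-- The tuple of the row REL. -/
structure TD (d : Dat c) {Ω ξ₁ ξ : Type} [Fintype Ω] (Q : Ω → ℝ) (w₁ wm w₀ : Ω → d.Om)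
    (x₁ : Ω → ξ₁) (x : Ω → ξ) (δ : ℝ) : Prop where
  law : IsLaw Q
  l1 : ∀ ω, Pool.Agent.H49.Ent.law Q w₁ ω = d.P ω
  lm : ∀ ω, Pool.Agent.H49.Ent.law Q wm ω = d.P ω
  l0 : ∀ ω, Pool.Agent.H49.Ent.law Q w₀ ω = d.P ω
  hL : ∀ v, 0 < Q v → d.L (wm v) = d.L (w₁ v) ∧ d.L (w₀ v) = d.L (w₁ v)
  hx1 : Det Q x₁ (fun v => (d.vis (w₁ v), d.T (w₁ v)))
  hx : Det Q x (fun v => (x₁ v, d.T (wm v), d.T (w₀ v), d.B (w₁ v)))
  hLx : Pool.KVA.MI Q (fun v => d.L (w₁ v)) x (fun v => d.B (w₁ v)) ≤ δ * d.X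
  hNB : Pool.KVA.MI Q (fun v => d.N (w₁ v)) (fun v => d.B (w₁ v)) x₁ ≤ δ * d.X
  hN : Det d.P (fun ω => (d.L ω, d.T ω)) d.N
  h2 : d.H2 δ
  h3 : d.H3 δ

namespace TD

variable {d : Dat c} {Ω ξ₁ ξ : Type} [Fintype Ω] {Q : Ω → ℝ} {w₁ wm w₀ : Ω → d.Om}
  {x₁ : Ω → ξ₁} {x : Ω → ξ} {δ : ℝ} (h : TD d Q w₁ wm w₀ x₁ x δ)

include h

theorem Q0 : ∀ v, 0 ≤ Q v := h.law.nonneg

theorem xx1 : Det Q x x₁ := fun v v' a a' hh => (Prod.ext_iff.mp (h.hx v v' a a' hh)).1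

theorem xtm : Det Q x (fun v => d.T (wm v)) := fun v v' a a' hh =>
  (Prod.ext_iff.mp (Prod.ext_iff.mp (h.hx v v' a a' hh)).2).1

theorem xt0 : Det Q x (fun v => d.T (w₀ v)) := fun v v' a a' hh =>
  (Prod.ext_iff.mp (Prod.ext_iff.mp (Prod.ext_iff.mp (h.hx v v' a a' hh)).2).2).1

theorem xB : Det Q x (fun v => d.B (w₁ v)) := fun v v' a a' hh =>
  (Prod.ext_iff.mp (Prod.ext_iff.mp (Prod.ext_iff.mp (h.hx v v' a a' hh)).2).2).2

theorem x1t : Det Q x₁ (fun v => d.T (w₁ v)) := fun v v' a a' hh =>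
  (Prod.ext_iff.mp (h.hx1 v v' a a' hh)).2

theorem xt1 : Det Q x (fun v => d.T (w₁ v)) := fun v v' a a' hh =>
  h.x1t v v' a a' (h.xx1 v v' a a' hh)

theorem p1 {v : Ω} (hv : 0 < Q v) : 0 < d.P (w₁ v) := by
  rw [← h.l1]
  exact law_pos h.Q0 w₁ hv

theorem pm {v : Ω} (hv : 0 < Q v) : 0 < d.P (wm v) := by
  rw [← h.lm]
  exact law_pos h.Q0 wm hv

theorem p0 {v : Ω} (hv : 0 < Q v) : 0 < d.P (w₀ v) := by
  rw [← h.l0]
  exact law_pos h.Q0 w₀ hv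

theorem Bm {v : Ω} (hv : 0 < Q v) : d.B (wm v) = d.B (w₁ v) := by
  unfold Dat.B
  rw [(h.hL v hv).1]

theorem B0 {v : Ω} (hv : 0 < Q v) : d.B (w₀ v) = d.B (w₁ v) := by
  unfold Dat.B
  rw [(h.hL v hv).2]

theorem detV : Det Q (fun v => d.L (w₁ v)) (fun v => d.V (d.L (w₁ v))) := fun v v' _ _ hh => by
  have h' : d.L (w₁ v) = d.L (w₁ v') := hh
  show d.V (d.L (w₁ v)) = d.V (d.L (w₁ v'))
  rw [h']

theorem detN1 : Det Q (fun v => (d.L (w₁ v), d.T (w₁ v))) (fun v => d.N (w₁ v)) :=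
  fun v v' a a' hh => h.hN (w₁ v) (w₁ v') (h.p1 a) (h.p1 a') hh

theorem detN0 : Det Q (fun v => (d.L (w₁ v), d.T (w₀ v))) (fun v => d.N (w₀ v)) :=
  fun v v' a a' hh => by
    have h' := Prod.ext_iff.mp hh
    have e1 : d.L (w₁ v) = d.L (w₁ v') := h'.1
    rw [← (h.hL v a).2, ← (h.hL v' a').2] at e1
    exact h.hN (w₀ v) (w₀ v') (h.p0 a) (h.p0 a') (Prod.ext e1 h'.2)

theorem mi_V : mi Q (fun v => d.V (d.L (w₁ v))) x (fun v => (d.T (wm v), d.B (w₁ v))) ≤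
    δ * d.X :=
  (mi_lineb h.Q0 h.xtm (fun v v' a a' hh => h.detV v v' a a' (Prod.ext_iff.mp hh).1)).trans h.hLx

theorem mi_N1 : mi Q (fun v => d.N (w₁ v)) (fun v => d.V (d.L (w₁ v))) x ≤ 2 * δ * d.X := by
  have h1 := mi_posb h.Q0 (b := fun v => d.B (w₁ v)) h.xt1 h.detV h.detN1
  have h2 := mi_congr h.Q0 (fun v => d.N (w₁ v)) (fun v => d.V (d.L (w₁ v)))
    (b := fun v => (x v, d.B (w₁ v))) (b' := x) (fun v v' _ _ hh => (Prod.ext_iff.mp hh).1)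
    (fun v v' a a' hh => Prod.ext hh (h.xB v v' a a' hh))
  have h3 : mi Q (fun v => d.N (w₁ v)) (fun v => d.V (d.L (w₁ v)))
      (fun v => (d.B (w₁ v), d.T (w₁ v))) ≤ δ * d.X := by
    rw [mi_push h.l1 d.N (fun ω => d.V (d.L ω)) (fun ω => (d.B ω, d.T ω))]
    exact h.h2
  have h4 := mi_congr h.Q0 (fun v => d.N (w₁ v)) (fun v => d.V (d.L (w₁ v)))
    (b := fun v => (d.T (w₁ v), d.B (w₁ v))) (b' := fun v => (d.B (w₁ v), d.T (w₁ v)))
    (fun v v' _ _ hh => by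
      have h' := Prod.ext_iff.mp hh
      exact Prod.ext h'.2 h'.1)
    (fun v v' _ _ hh => by
      have h' := Prod.ext_iff.mp hh
      exact Prod.ext h'.2 h'.1)
  have h5 := h.hLx
  linarith

theorem mi_N0 : mi Q (fun v => d.N (w₀ v)) (fun v => d.V (d.L (w₁ v))) x ≤ 2 * δ * d.X := by
  have h1 := mi_posb h.Q0 (b := fun v => d.B (w₁ v)) h.xt0 h.detV h.detN0
  have h2 := mi_congr h.Q0 (fun v => d.N (w₀ v)) (fun v => d.V (d.L (w₁ v)))
    (b := fun v => (x v, d.B (w₁ v))) (b' := x) (fun v v' _ _ hh => (Prod.ext_iff.mp hh).1)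
    (fun v v' a a' hh => Prod.ext hh (h.xB v v' a a' hh))
  have h3 : mi Q (fun v => d.N (w₀ v)) (fun v => d.V (d.L (w₀ v)))
      (fun v => (d.B (w₀ v), d.T (w₀ v))) ≤ δ * d.X := by
    rw [mi_push h.l0 d.N (fun ω => d.V (d.L ω)) (fun ω => (d.B ω, d.T ω))]
    exact h.h2
  have h4 := mi_congr h.Q0 (fun v => d.N (w₀ v)) (fun v => d.V (d.L (w₀ v)))
    (b := fun v => (d.T (w₀ v), d.B (w₁ v))) (b' := fun v => (d.B (w₀ v), d.T (w₀ v)))
    (fun v v' a a' hh => by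
      have h' := Prod.ext_iff.mp hh
      have e : d.B (w₀ v) = d.B (w₀ v') := by rw [h.B0 a, h.B0 a']; exact h'.2
      exact Prod.ext e h'.1)
    (fun v v' a a' hh => by
      have h' := Prod.ext_iff.mp hh
      have e : d.B (w₁ v) = d.B (w₁ v') := by rw [← h.B0 a, ← h.B0 a']; exact h'.1
      exact Prod.ext h'.2 e)
  have h6 := mi_mono h.Q0 (fun v => d.N (w₀ v)) (fun v => d.V (d.L (w₀ v)))
    (fun v => d.V (d.L (w₁ v))) (fun v => (d.T (w₀ v), d.B (w₁ v))) (fun v v' a a' hh => by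
      have h' : d.V (d.L (w₀ v)) = d.V (d.L (w₀ v')) := (Prod.ext_iff.mp hh).1
      rw [(h.hL v a).2, (h.hL v' a').2] at h'
      exact h')
  have h5 := h.hLx
  linarith

theorem mi_Nx : mi Q (fun v => d.N (w₁ v)) x x₁ ≤ 2 * δ * d.X := by
  have h1 := mi_timesb h.Q0 (b := fun v => d.B (w₁ v)) (N := fun v => d.N (w₁ v)) h.xx1
    (L := fun v => d.L (w₁ v)) (fun v v' a a' hh => by
      have h' := Prod.ext_iff.mp hh
      exact h.detN1 v v' a a' (Prod.ext h'.1 (h.x1t v v' a a' h'.2)))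
  have h2 := mi_mono h.Q0 (fun v => d.N (w₁ v)) (fun v => (x v, d.B (w₁ v))) x x₁
    (fun v v' _ _ hh => (Prod.ext_iff.mp (Prod.ext_iff.mp hh).1).1)
  have h5 := h.hLx
  have h6 := h.hNB
  linarith

theorem mi_om (n : ℕ) : mi Q (dig (fun v => d.omR (d.L (w₁ v))) n)
    (fun v => (d.T (wm v), d.Yt (d.T (wm v)) (d.L (w₁ v)))) (fun v => d.B (w₁ v)) ≤
      2 * δ * d.X := by
  have h0 : mi Q (dig (fun v => d.omR (d.L (w₁ v))) n)
      (fun v => (d.T (wm v), d.Yt (d.T (wm v)) (d.L (w₁ v)))) (fun v => d.B (w₁ v)) ≤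
      mi Q (fun v => d.om (d.L (w₁ v)))
        (fun v => (d.T (wm v), d.Yt (d.T (wm v)) (d.L (w₁ v)))) (fun v => d.B (w₁ v)) :=
    mi_mono_left h.Q0 _ _ _ _ fun v v' _ _ hh => by
      have h' : d.om (d.L (w₁ v)) = d.om (d.L (w₁ v')) := (Prod.ext_iff.mp hh).1
      show ⌊(2 : ℝ) ^ n * d.omR (d.L (w₁ v))⌋ = ⌊(2 : ℝ) ^ n * d.omR (d.L (w₁ v'))⌋
      unfold Dat.omR
      rw [h']
  have h1 := mi_chain h.Q0 (fun v => d.om (d.L (w₁ v))) (fun v => d.T (wm v))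
    (fun v => d.Yt (d.T (wm v)) (d.L (w₁ v))) (fun v => d.B (w₁ v))
  have h2 : mi Q (fun v => d.om (d.L (w₁ v))) (fun v => d.T (wm v)) (fun v => d.B (w₁ v)) ≤
      δ * d.X := by
    have a1 := mi_mono h.Q0 (fun v => d.om (d.L (w₁ v))) x (fun v => d.T (wm v))
      (fun v => d.B (w₁ v)) (fun v v' a a' hh => h.xtm v v' a a' (Prod.ext_iff.mp hh).1)
    have a2 := mi_mono_left h.Q0 (fun v => d.L (w₁ v)) (fun v => d.om (d.L (w₁ v))) x
      (fun v => d.B (w₁ v)) (fun v v' _ _ hh => by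
        have h' : d.L (w₁ v) = d.L (w₁ v') := (Prod.ext_iff.mp hh).1
        show d.om (d.L (w₁ v)) = d.om (d.L (w₁ v'))
        rw [h'])
    have h5 := h.hLx
    linarith
  have h3 : mi Q (fun v => d.om (d.L (w₁ v))) (fun v => d.Yt (d.T (wm v)) (d.L (w₁ v)))
      (fun v => (d.T (wm v), d.B (w₁ v))) ≤ δ * d.X := by
    have a0 : mi Q (fun v => d.om (d.L (wm v))) (fun v => d.Yt (d.T (wm v)) (d.L (wm v)))
        (fun v => (d.B (wm v), d.T (wm v))) ≤ δ * d.X := by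
      rw [mi_push h.lm (fun ω => d.om (d.L ω)) (fun ω => d.Yt (d.T ω) (d.L ω))
        (fun ω => (d.B ω, d.T ω))]
      exact h.h3
    have a1 := mi_congr h.Q0 (fun v => d.om (d.L (wm v)))
      (fun v => d.Yt (d.T (wm v)) (d.L (wm v)))
      (b := fun v => (d.T (wm v), d.B (w₁ v))) (b' := fun v => (d.B (wm v), d.T (wm v)))
      (fun v v' a a' hh => by
        have h' := Prod.ext_iff.mp hh
        have e : d.B (wm v) = d.B (wm v') := by rw [h.Bm a, h.Bm a']; exact h'.2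
        exact Prod.ext e h'.1)
      (fun v v' a a' hh => by
        have h' := Prod.ext_iff.mp hh
        have e : d.B (w₁ v) = d.B (w₁ v') := by rw [← h.Bm a, ← h.Bm a']; exact h'.1
        exact Prod.ext h'.2 e)
    have a2 := mi_mono h.Q0 (fun v => d.om (d.L (wm v)))
      (fun v => d.Yt (d.T (wm v)) (d.L (wm v))) (fun v => d.Yt (d.T (wm v)) (d.L (w₁ v)))
      (fun v => (d.T (wm v), d.B (w₁ v))) (fun v v' a a' hh => by
        have h' : d.Yt (d.T (wm v)) (d.L (wm v)) = d.Yt (d.T (wm v')) (d.L (wm v')) :=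
          (Prod.ext_iff.mp hh).1
        rw [(h.hL v a).1, (h.hL v' a').1] at h'
        exact h')
    have a3 := mi_mono_left h.Q0 (fun v => d.om (d.L (wm v))) (fun v => d.om (d.L (w₁ v)))
      (fun v => d.Yt (d.T (wm v)) (d.L (w₁ v))) (fun v => (d.T (wm v), d.B (w₁ v)))
      (fun v v' a a' hh => by
        have h' : d.om (d.L (wm v)) = d.om (d.L (wm v')) := (Prod.ext_iff.mp hh).1
        rw [(h.hL v a).1, (h.hL v' a').1] at h'
        exact h')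
    linarith
  linarith

end TD

end Pool.OCV.M17
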