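import Pool.Agent.H17.OCM.RelM

/-!
# Theorem OCV, row REL: one row (helper17)
-/

set_option autoImplicit false

namespace Pool.OCV.M17

open Finset Real
open Pool.Agent.H49.Ent Pool.Agent.H32.Dense Pool.STK Pool.KAF Pool.KAL Pool.KX
open Pool.OCM Pool.OCM.M17 Pool.OC.RS
open Pool.OC (sc)

variable {c : ℕ}

open Classical in
/-- The summand of RAVS. -/
noncomputable def RSm {Ω χ₀ γ θ : Type} [Fintype Ω] (p : Ω → ℝ) (N₂ : Ω → Fin c → ℤ) (t : Ω → θ)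
    (x0 : Ω → χ₀) (Z : Ω → Ω → Fin c → ℝ) (G : ℤ → Ω → γ) (mu : Ω → ℤ) (A : Set Ω) (C : Cov c)
    (r₁ c₀ X k k1 Kc : ℕ) (D : ℝ) (ω : Ω) (s : ℤ) : ℝ :=
  if ω ∈ A ∧ (r₁ : ℤ) ≤ s + mu ω ∧ s + mu ω + r₁ + c₀ ≤ X then
    (∑ u : Fin c → Fin (2 ^ X),
      if low p (sh N₂ u) t (X + k + 1 - (s + mu ω).toNat) Kc D ω then
        Pr (Pool.Agent.H49.Ent.cond p (fun v => (G s v, x0 v)) (G s ω, x0 ω))
          {v | (2 : ℝ) ^ (-(s + mu ω + k1)) ≤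
            |∑ i, C θ (law p (fun v => (N₂ v, t v))) X (s + mu ω).toNat u (N₂ ω) (t ω) i *
              (Z ω ω i - Z ω v i)|}
      else 0) / (2 : ℝ) ^ (c * X)
  else 0

theorem RSm_nonneg {Ω χ₀ γ θ : Type} [Fintype Ω] {p : Ω → ℝ} (hp : ∀ ω, 0 ≤ p ω)
    (N₂ : Ω → Fin c → ℤ) (t : Ω → θ)
    (x0 : Ω → χ₀) (Z : Ω → Ω → Fin c → ℝ) (G : ℤ → Ω → γ) (mu : Ω → ℤ) (A : Set Ω) (C : Cov c)
    (r₁ c₀ X k k1 Kc : ℕ) (D : ℝ) (ω : Ω) (s : ℤ) :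
    0 ≤ RSm p N₂ t x0 Z G mu A C r₁ c₀ X k k1 Kc D ω s := by
  classical
  unfold RSm
  split_ifs
  · refine div_nonneg (Finset.sum_nonneg fun u _ => ?_) (by positivity)
    split_ifs
    · exact Pr_nonneg' (cond_nonneg hp _ _) _
    · exact le_rfl
  · exact le_rfl

section

variable (d : Dat c) {Ω ξ₁ : Type} (w₁ wm w₀ : Ω → d.Om) (x₁ : Ω → ξ₁)
  (M : ξ₁ → Fin c → Fin c → ℝ)

/-- The displacement. -/
noncomputable def Zf (ω v : Ω) (i : Fin c) : ℝ :=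
  zc (M (x₁ ω)) (Zd d (d.T (w₁ ω)) (d.T (wm ω)) (d.T (w₀ ω))
    (d.Yt (d.T (wm ω)) (d.L (w₁ v))) (d.omR (d.L (w₁ v)))) i +
  zc (M (x₁ ω)) (fun j => (d.kn (d.B (w₁ ω)) (d.T (w₁ ω)) j -
    d.kn (d.B (w₁ ω)) (d.T (w₀ ω)) j) / 2 ^ d.X) i

/-- The cells. -/
noncomputable def Gf (s : ℤ) (v : Ω) : (ℤ × (Fin c → ℤ)) × ℤ :=
  (d.Yt (d.T (wm v)) (d.L (w₁ v)), digZ (fun v => d.omR (d.L (w₁ v))) s v)

/-- The admissible tuples. -/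
def Af (kz g : ℕ) : Set Ω := {v | Adm d (M (x₁ v)) kz g (d.T (w₁ v)) (d.T (wm v)) (d.T (w₀ v))}

/-- The scales. -/
noncomputable def muf (v : Ω) : ℤ := mus d (d.T (w₁ v)) (d.T (wm v)) (d.T (w₀ v))

/-- The excess of the activity. -/
noncomputable def exc [Fintype Ω] (Q : Ω → ℝ) (k₇ s : ℕ) (ω : Ω) : ℝ :=
  max 0 (Pr (Pool.Agent.H49.Ent.cond Q
      (fun v => (dig (fun v => d.omR (d.L (w₁ v))) s v, d.B (w₁ v)))
        (dig (fun v => d.omR (d.L (w₁ v))) s ω, d.B (w₁ ω)))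
      {v | (2 : ℝ) ^ (-((s : ℤ) + k₇)) ≤ |d.omR (d.L (w₁ v)) - d.omR (d.L (w₁ ω))|} -
    Pr (Pool.Agent.H49.Ent.cond Q (fun v => ((d.T (wm v), d.Yt (d.T (wm v)) (d.L (w₁ v))),
        (dig (fun v => d.omR (d.L (w₁ v))) s v, d.B (w₁ v))))
        ((d.T (wm ω), d.Yt (d.T (wm ω)) (d.L (w₁ ω))),
          (dig (fun v => d.omR (d.L (w₁ v))) s ω, d.B (w₁ ω))))
      {v | (2 : ℝ) ^ (-((s : ℤ) + k₇ + 1)) ≤ |d.omR (d.L (w₁ v)) - d.omR (d.L (w₁ ω))|})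

end

open Classical in
/-- One row. -/
theorem one_row {d : Dat c} {Ω ξ₁ ξ : Type} [Fintype Ω] {Q : Ω → ℝ} {w₁ wm w₀ : Ω → d.Om}
    {x₁ : Ω → ξ₁} {x : Ω → ξ} {δ : ℝ} (h : TD d Q w₁ wm w₀ x₁ x δ)
    (M : ξ₁ → Fin c → Fin c → ℝ) (C : Cov c) (hC : C.Unit) (k₇ kz g r₁ c₀ K : ℕ) (D c₁ : ℝ)
    (hc₁ : 0 < c₁) {v : Ω} (hv : 0 < Q v) (n r : ℕ)
    (hA : Adm d (M (x₁ v)) kz g (d.T (w₁ v)) (d.T (wm v)) (d.T (w₀ v)))
    (hr : (r : ℤ) = n + muf d w₁ wm w₀ v) (hact : d.act c₁ k₇ n (d.L (w₁ v)))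
    (hr1 : r₁ ≤ r) (hr2 : r + r₁ + c₀ ≤ d.X) :
    (∑ u : Fin c → Fin (2 ^ d.X),
      if low Q (sh (fun v => nz (M (x₁ v)) (d.N (w₁ v))) u) x₁ (d.X + (kz + 4) + 1 - r)
          K D v ∧
        (2 : ℝ) ^ (-(g : ℤ)) <
          |∑ i, C ξ₁ (law Q (fun v => (nz (M (x₁ v)) (d.N (w₁ v)), x₁ v))) d.X r u
              (nz (M (x₁ v)) (d.N (w₁ v))) (x₁ v) i *
            (zc (M (x₁ v)) (d.chi (d.T (w₁ v)) (d.T (wm v))) i +
              zc (M (x₁ v)) (d.chi (d.T (w₁ v)) (d.T (w₀ v))) i)|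
      then (1 : ℝ) else 0) / (2 : ℝ) ^ (c * d.X) ≤
    2 / c₁ * (RSm Q (fun v => nz (M (x₁ v)) (d.N (w₁ v))) x₁
        (fun v => (d.T (wm v), d.B (w₁ v))) (Zf d w₁ wm w₀ x₁ M) (Gf d w₁ wm)
        (muf d w₁ wm w₀) (Af d w₁ wm w₀ x₁ M kz g) C r₁ c₀ d.X (kz + 4) (k₇ + g + 2) K D v n +
      exc d w₁ wm Q k₇ n v) := by
  have hQ0 := h.Q0
  set N₂ : Ω → Fin c → ℤ := fun v => nz (M (x₁ v)) (d.N (w₁ v)) with hN2
  set om : Ω → ℝ := fun v => d.omR (d.L (w₁ v)) with hom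
  have hP : (0 : ℝ) < (2 : ℝ) ^ (c * d.X) := by positivity
  have hRS0 := RSm_nonneg hQ0 N₂ x₁ (fun v => (d.T (wm v), d.B (w₁ v))) (Zf d w₁ wm w₀ x₁ M)
    (Gf d w₁ wm) (muf d w₁ wm w₀) (Af d w₁ wm w₀ x₁ M kz g) C r₁ c₀ d.X (kz + 4)
    (k₇ + g + 2) K D v n
  have hex0 : 0 ≤ exc d w₁ wm Q k₇ n v := le_max_left _ _
  set pg := Pr (Pool.Agent.H49.Ent.cond Q (fun v => (dig om n v, d.B (w₁ v)))
    (dig om n v, d.B (w₁ v))) {v' | (2 : ℝ) ^ (-((n : ℤ) + k₇)) ≤ |om v' - om v|} with hpg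
  set qc := Pool.Agent.H49.Ent.cond Q (fun v => ((d.T (wm v), d.Yt (d.T (wm v)) (d.L (w₁ v))),
    (dig om n v, d.B (w₁ v)))) ((d.T (wm v), d.Yt (d.T (wm v)) (d.L (w₁ v))),
      (dig om n v, d.B (w₁ v))) with hqc
  set pc := Pr qc {v' | (2 : ℝ) ^ (-((n : ℤ) + k₇ + 1)) ≤ |om v' - om v|} with hpc
  have hexc : pg - pc ≤ exc d w₁ wm Q k₇ n v := le_max_right _ _
  have hpg1 : c₁ ≤ pg := by
    have e := Pr_cond_push h.l1 (fun ω => (⌊(2 : ℝ) ^ n * d.omR (d.L ω)⌋, d.B ω))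
      (⌊(2 : ℝ) ^ n * d.omR (d.L (w₁ v))⌋, d.b (d.L (w₁ v)))
      {ω | (2 : ℝ) ^ (-((n : ℤ) + k₇)) ≤ |d.omR (d.L ω) - d.omR (d.L (w₁ v))|}
    have h1 : c₁ ≤ _ := hact
    rw [← e] at h1
    exact h1
  -- the left side is at most one
  have hle1 : ∀ (f : (Fin c → Fin (2 ^ d.X)) → Prop) [DecidablePred f],
      (∑ u : Fin c → Fin (2 ^ d.X), if f u then (1 : ℝ) else 0) / (2 : ℝ) ^ (c * d.X) ≤ 1 := by
    intro f _
    rw [div_le_one hP]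
    calc (∑ u : Fin c → Fin (2 ^ d.X), if f u then (1 : ℝ) else 0)
        ≤ ∑ _u : Fin c → Fin (2 ^ d.X), (1 : ℝ) := Finset.sum_le_sum fun u _ => by
          split_ifs
          · exact le_rfl
          · exact zero_le_one
      _ = (2 : ℝ) ^ (c * d.X) := by
          rw [Finset.sum_const, Finset.card_univ, Fintype.card_fun, Fintype.card_fin,
            Fintype.card_fin, nsmul_eq_mul, mul_one]
          push_cast
          rw [← pow_mul, mul_comm]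
  by_cases hcase : c₁ / 2 ≤ exc d w₁ wm Q k₇ n v
  · refine (hle1 _).trans ?_
    have h1 : 2 / c₁ * (c₁ / 2) = 1 := by field_simp
    rw [← h1]
    refine mul_le_mul_of_nonneg_left ?_ (by positivity)
    linarith
  push Not at hcase
  have hpc1 : c₁ / 2 ≤ pc := by linarith
  have hn : ((n : ℤ) + muf d w₁ wm w₀ v).toNat = r := by
    rw [← hr]
    exact Int.toNat_natCast r
  -- the cells of RAVS
  have hcell : Pool.Agent.H49.Ent.cond Q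
      (fun v => (Gf d w₁ wm (n : ℤ) v, (d.T (wm v), d.B (w₁ v))))
      (Gf d w₁ wm (n : ℤ) v, (d.T (wm v), d.B (w₁ v))) = qc := by
    refine cond_congr hQ0 fun v' _ => ?_
    unfold Gf
    rw [digZ_nat, digZ_nat]
    simp only [Prod.mk.injEq]
    tauto
  have key : ∀ u : Fin c → Fin (2 ^ d.X),
      (2 : ℝ) ^ (-(g : ℤ)) <
          |∑ i, C ξ₁ (law Q (fun v => (nz (M (x₁ v)) (d.N (w₁ v)), x₁ v))) d.X r u
              (nz (M (x₁ v)) (d.N (w₁ v))) (x₁ v) i *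
            (zc (M (x₁ v)) (d.chi (d.T (w₁ v)) (d.T (wm v))) i +
              zc (M (x₁ v)) (d.chi (d.T (w₁ v)) (d.T (w₀ v))) i)| →
      c₁ / 2 ≤ Pr qc {v' | (2 : ℝ) ^ (-((n : ℤ) + muf d w₁ wm w₀ v + ((k₇ + g + 2 : ℕ) : ℤ))) ≤
            |∑ i, C ξ₁ (law Q (fun v => (N₂ v, x₁ v))) d.X r u (N₂ v) (x₁ v) i *
              (Zf d w₁ wm w₀ x₁ M v v i - Zf d w₁ wm w₀ x₁ M v v' i)|} := by
    intro u hu
    refine hpc1.trans (Pr_mono_supp (cond_nonneg hQ0 _ _) fun v' hv' hv1 => ?_)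
    have hl := ((cond_pos_iff hQ0 _ _ v').1 hv').2
    have hY : d.Yt (d.T (wm v')) (d.L (w₁ v')) = d.Yt (d.T (wm v)) (d.L (w₁ v)) :=
      (Prod.ext_iff.mp (Prod.ext_iff.mp hl).1).2
    have hT : d.T (wm v') = d.T (wm v) := (Prod.ext_iff.mp (Prod.ext_iff.mp hl).1).1
    rw [hT] at hY
    have ho : (2 : ℝ) ^ (-((n : ℤ) + k₇ + 1)) ≤
        |d.omR (d.L (w₁ v)) - d.omR (d.L (w₁ v'))| := by
      rw [abs_sub_comm]
      exact hv1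
    have h1 := large d (M (x₁ v)) hA _ (hC ξ₁ (law Q (fun v => (N₂ v, x₁ v))) d.X r u (N₂ v) (x₁ v))
      hu (d.Yt (d.T (wm v)) (d.L (w₁ v))) ho
    have e1 : -((n : ℤ) + muf d w₁ wm w₀ v + ((k₇ + g + 2 : ℕ) : ℤ)) =
        -((n : ℤ) + k₇ + 1 + mus d (d.T (w₁ v)) (d.T (wm v)) (d.T (w₀ v)) +
          ((g + 1 : ℕ) : ℤ)) := by
      unfold muf
      push_cast
      ring
    show (2 : ℝ) ^ (-((n : ℤ) + muf d w₁ wm w₀ v + ((k₇ + g + 2 : ℕ) : ℤ))) ≤ _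
    rw [e1]
    refine h1.trans (le_of_eq ?_)
    congr 1
    refine Finset.sum_congr rfl fun i _ => ?_
    unfold Zf
    rw [hY]
    ring
  -- the summand of RAVS
  have hRS : RSm Q N₂ x₁ (fun v => (d.T (wm v), d.B (w₁ v))) (Zf d w₁ wm w₀ x₁ M)
      (Gf d w₁ wm) (muf d w₁ wm w₀) (Af d w₁ wm w₀ x₁ M kz g) C r₁ c₀ d.X (kz + 4)
      (k₇ + g + 2) K D v n =
      (∑ u : Fin c → Fin (2 ^ d.X),
        if low Q (sh N₂ u) x₁ (d.X + (kz + 4) + 1 - r) K D v then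
          Pr qc {v' | (2 : ℝ) ^ (-((n : ℤ) + muf d w₁ wm w₀ v + ((k₇ + g + 2 : ℕ) : ℤ))) ≤
            |∑ i, C ξ₁ (law Q (fun v => (N₂ v, x₁ v))) d.X r u (N₂ v) (x₁ v) i *
              (Zf d w₁ wm w₀ x₁ M v v i - Zf d w₁ wm w₀ x₁ M v v' i)|}
        else 0) / (2 : ℝ) ^ (c * d.X) := by
    unfold RSm
    rw [if_pos ⟨hA, by rw [← hr]; exact_mod_cast hr1, by rw [← hr]; exact_mod_cast hr2⟩, hn,
      hcell]
  rw [hRS]
  have h3 : (∑ u : Fin c → Fin (2 ^ d.X),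
      if low Q (sh N₂ u) x₁ (d.X + (kz + 4) + 1 - r) K D v ∧
        (2 : ℝ) ^ (-(g : ℤ)) <
          |∑ i, C ξ₁ (law Q (fun v => (nz (M (x₁ v)) (d.N (w₁ v)), x₁ v))) d.X r u
              (nz (M (x₁ v)) (d.N (w₁ v))) (x₁ v) i *
            (zc (M (x₁ v)) (d.chi (d.T (w₁ v)) (d.T (wm v))) i +
              zc (M (x₁ v)) (d.chi (d.T (w₁ v)) (d.T (w₀ v))) i)|
      then (1 : ℝ) else 0) ≤ 2 / c₁ * ∑ u : Fin c → Fin (2 ^ d.X),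
        if low Q (sh N₂ u) x₁ (d.X + (kz + 4) + 1 - r) K D v then
          Pr qc {v' | (2 : ℝ) ^ (-((n : ℤ) + muf d w₁ wm w₀ v + ((k₇ + g + 2 : ℕ) : ℤ))) ≤
            |∑ i, C ξ₁ (law Q (fun v => (N₂ v, x₁ v))) d.X r u (N₂ v) (x₁ v) i *
              (Zf d w₁ wm w₀ x₁ M v v i - Zf d w₁ wm w₀ x₁ M v v' i)|}
        else 0 := by
    rw [Finset.mul_sum]
    refine Finset.sum_le_sum fun u _ => ?_
    by_cases hl : low Q (sh N₂ u) x₁ (d.X + (kz + 4) + 1 - r) K D v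
    · rw [if_pos hl]
      split_ifs with h4
      · have h5 := key u h4.2
        have h6 : 2 / c₁ * (c₁ / 2) = 1 := by field_simp
        rw [← h6]
        exact mul_le_mul_of_nonneg_left h5 (by positivity)
      · exact mul_nonneg (by positivity) (Pr_nonneg' (cond_nonneg hQ0 _ _) _)
    · rw [if_neg hl, if_neg (fun h4 => hl h4.1), mul_zero]
  have h7 := div_le_div_of_nonneg_right h3 hP.le
  refine h7.trans ?_
  rw [mul_add, mul_div_assoc]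
  have : 0 ≤ 2 / c₁ * exc d w₁ wm Q k₇ n v := by positivity
  linarith

end Pool.OCV.M17
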