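import Pool.Agent.H17.OCM.RelP

/-!
# Theorem OCV, row REL: the theorem (helper17)
-/

set_option autoImplicit false

namespace Pool.OCV.M17

open Finset Real
open Pool.Agent.H49.Ent Pool.Agent.H32.Dense Pool.STK Pool.KAF Pool.KAL Pool.KX
open Pool.OCM Pool.OCM.M17 Pool.OC.RS
open Pool.OC (sc)

variable {c : ℕ}

theorem sum_Ico_int (f : ℤ → ℝ) (X : ℕ) :
    ∑ s ∈ Finset.Ico (0 : ℤ) X, f s = ∑ s ∈ range X, f (s : ℤ) := by
  have e0 : Finset.Ico (0 : ℤ) X = (range X).image (fun i : ℕ => (i : ℤ)) := by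
    ext s
    rw [Finset.mem_Ico, Finset.mem_image]
    constructor
    · intro hs
      exact ⟨s.toNat, Finset.mem_range.mpr (by omega), by omega⟩
    · rintro ⟨i, hi, rfl⟩
      have := Finset.mem_range.mp hi
      omega
  rw [e0, Finset.sum_image fun i _ j _ hij => by
    have hij' : (i : ℤ) = j := hij
    exact_mod_cast hij']

/-- The change of variables of the sum over the rows. -/
theorem sum_rows (S : Finset ℕ) (mu : ℤ) (X : ℕ) (P : ℕ → Prop) [DecidablePred P] (W : ℕ → ℝ)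
    (f : ℕ → ℝ) (hf : ∀ s, 0 ≤ f s)
    (h : ∀ r ∈ S, P r → 0 ≤ (r : ℤ) - mu ∧ ((r : ℤ) - mu).toNat < X ∧
      W r ≤ f ((r : ℤ) - mu).toNat) :
    ∑ r ∈ S, (if P r then W r else 0) ≤ ∑ s ∈ range X, f s := by
  classical
  rw [← Finset.sum_filter]
  have h1 : ∑ r ∈ S.filter P, W r ≤ ∑ r ∈ S.filter P, f ((r : ℤ) - mu).toNat := by
    refine Finset.sum_le_sum fun r hr => ?_
    obtain ⟨hr1, hr2⟩ := Finset.mem_filter.mp hr
    exact (h r hr1 hr2).2.2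
  refine h1.trans ?_
  rw [← Finset.sum_image (f := f) (g := fun r : ℕ => ((r : ℤ) - mu).toNat)]
  · refine Finset.sum_le_sum_of_subset_of_nonneg ?_ fun s _ _ => hf s
    intro s hs
    obtain ⟨r, hr, rfl⟩ := Finset.mem_image.mp hs
    obtain ⟨hr1, hr2⟩ := Finset.mem_filter.mp hr
    exact Finset.mem_range.mpr (h r hr1 hr2).2.1
  · intro r hr r' hr' hrr
    obtain ⟨hr1, hr2⟩ := Finset.mem_filter.mp hr
    obtain ⟨hr1', hr2'⟩ := Finset.mem_filter.mp hr'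
    have a1 := (h r hr1 hr2).1
    have a2 := (h r' hr1' hr2').1
    have a3 : ((r : ℤ) - mu).toNat = ((r' : ℤ) - mu).toNat := hrr
    omega

open Classical in
/-- **REL.** -/
theorem rel_thm (c : ℕ) (hR : RAVSStmt c) : RELStmt c := by
  intro k₇ kz g c₁ ε hc₁ hε
  obtain ⟨D₀, hD⟩ := hR (kz + 4) (k₇ + g + 2) (ε * c₁ / 4) (by positivity)
  refine ⟨D₀, fun D hD0 K => ?_⟩
  obtain ⟨K', hK'⟩ := hD D hD0 K
  obtain ⟨δ', r₁', C, hδ', hC, main⟩ := hK' (2 ^ K')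
  have ha0 : 0 < ε * c₁ / 8 := by positivity
  set a := ε * c₁ / 8 with ha
  have hk : (0 : ℝ) < ((k₇ + 2 : ℕ) : ℝ) := by positivity
  set δ := min (δ' / 2) (a ^ 2 / (2 * ((k₇ + 2 : ℕ) : ℝ))) with hδ
  have hδ0 : 0 < δ := lt_min (by positivity) (by positivity)
  have hδ1 : 2 * δ ≤ δ' := by
    have : δ ≤ δ' / 2 := min_le_left _ _
    linarith
  have hδ2 : ((k₇ + 2 : ℕ) : ℝ) * (2 * δ) ≤ a ^ 2 := by
    have h1 : δ ≤ a ^ 2 / (2 * ((k₇ + 2 : ℕ) : ℝ)) := min_le_right _ _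
    rw [le_div_iff₀ (by positivity)] at h1
    linarith
  refine ⟨r₁' + c + 5, δ, C, hδ0, hC, ?_⟩
  intro A kmax d hOK hH2 hH3 Ω ξ₁ ξ _ Q w₁ wm w₀ x₁ x M hQ hl1 hlm hl0 hL hx1 hx hLx hNB hM
  have h : TD d Q w₁ wm w₀ x₁ x δ :=
    ⟨hQ, hl1, hlm, hl0, hL, hx1, hx, hLx, hNB, hOK.hN, hH2, hH3⟩
  have hQ0 := h.Q0
  have hX0 : (0 : ℝ) ≤ d.X := Nat.cast_nonneg _
  have hδX : 2 * δ * d.X ≤ δ' * d.X := mul_le_mul_of_nonneg_right hδ1 hX0
  have hδX' : δ * d.X ≤ δ' * d.X := by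
    have : 0 ≤ δ * d.X := by positivity
    linarith
  set om : Ω → ℝ := fun v => d.omR (d.L (w₁ v)) with hom
  have hmain : ∑ ω, Q ω * ∑ s ∈ Finset.Ico (0 : ℤ) d.X,
      RSm Q (fun v => nz (M (x₁ v)) (d.N (w₁ v))) x₁ (fun v => (d.T (wm v), d.B (w₁ v)))
        (Zf d w₁ wm w₀ x₁ M) (Gf d w₁ wm) (muf d w₁ wm w₀) (Af d w₁ wm w₀ x₁ M kz g) C r₁'
        (kmax + c + 4) d.X (kz + 4) (k₇ + g + 2) K D ω s ≤ ε * c₁ / 4 * d.X := by
    refine main (kmax + c + 4) d.X 0 d.X (by omega) Ω ξ (d.Tau × d.Bt) (ℤ × ℤ × (Fin c → ℤ))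
      ((ℤ × (Fin c → ℤ)) × ℤ) ℤ ξ₁ Q (fun v => nz (M (x₁ v)) (d.N (w₀ v)))
      (fun v => nz (M (x₁ v)) (d.N (w₁ v))) x₁ x (fun v => (d.T (wm v), d.B (w₁ v)))
      (fun v => d.V (d.L (w₁ v))) (Zf d w₁ wm w₀ x₁ M) (Gf d w₁ wm) (blkZ om K')
      (Finset.Ico (0 : ℤ) (2 ^ K')) (muf d w₁ wm w₀) (Af d w₁ wm w₀ x₁ M kz g) hQ h.xx1
      ?_ ?_ ?_ ?_ ?_ ?_ ?_ ?_ ?_ ?_ ?_ ?_ ?_ ?_ ?_ ?_
    · intro v v' b b' hh
      exact Prod.ext (h.xtm v v' b b' hh) (h.xB v v' b b' hh)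
    · intro v hv i
      exact pos_err d hOK (M (x₁ v)) (hM (x₁ v)) (d.T (wm v)) (h.p0 hv) (h.p1 hv) (hL v hv).2 i
    · intro v v' u b b' _ hh
      have e1 := h.xt1 v v' b b' hh
      have e2 := h.xtm v v' b b' hh
      have e3 := h.xt0 v v' b b' hh
      have e4 := h.xB v v' b b' hh
      have e5 := h.xx1 v v' b b' hh
      simp only at e1 e2 e3 e4 e5
      funext i
      unfold Zf
      rw [e1, e2, e3, e4, e5]
    · intro v u u' _ _ _ hh
      funext i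
      unfold Zf
      rw [(V_yt d hh (d.T (wm v))).1, (V_yt d hh (d.T (wm v))).2]
    · intro s v v' _ _ hh
      have h1 := Prod.ext_iff.mp (Prod.ext_iff.mp hh).1
      refine Prod.ext h1.1 ?_
      exact digZ_step om 1 s (by exact_mod_cast h1.2)
    · intro s v v' _ _ hh
      have h1 := Prod.ext_iff.mp hh
      have h2 : d.T (wm v) = d.T (wm v') := (Prod.ext_iff.mp h1.2).1
      have h3 := V_yt d h1.1 (d.T (wm v))
      refine Prod.ext ?_ ?_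
      · show d.Yt (d.T (wm v)) (d.L (w₁ v)) = d.Yt (d.T (wm v')) (d.L (w₁ v'))
        rw [← h2]
        exact h3.1
      · show ⌊(2 : ℝ) ^ s * d.omR (d.L (w₁ v))⌋ = ⌊(2 : ℝ) ^ s * d.omR (d.L (w₁ v'))⌋
        rw [h3.2]
    · intro s v v' b b' hh
      have hh' := (Prod.ext_iff.mp hh).2
      have e1 := h.xt1 v v' b b' hh'
      have e2 := h.xtm v v' b b' hh'
      have e3 := h.xt0 v v' b b' hh'
      have e5 := h.xx1 v v' b b' hh'
      simp only at e1 e2 e3 e5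
      refine Prod.ext ?_ ?_
      · show muf d w₁ wm w₀ v = muf d w₁ wm w₀ v'
        unfold muf
        rw [e1, e2, e3]
      · show (v ∈ Af d w₁ wm w₀ x₁ M kz g) = (v' ∈ Af d w₁ wm w₀ x₁ M kz g)
        show (Adm d (M (x₁ v)) kz g (d.T (w₁ v)) (d.T (wm v)) (d.T (w₀ v))) =
          (Adm d (M (x₁ v')) kz g (d.T (w₁ v')) (d.T (wm v')) (d.T (w₀ v')))
        rw [e1, e2, e3, e5]
    · intro s v
      exact blkZ_mem om K' s v
    · rw [Int.card_Ico, sub_zero]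
      have : ((2 : ℤ) ^ K').toNat = 2 ^ K' := by
        have e : ((2 : ℤ) ^ K') = ((2 ^ K' : ℕ) : ℤ) := by push_cast; rfl
        rw [e, Int.toNat_natCast]
      rw [this]
    · intro s v v' _ _ hh
      have h1 := (Prod.ext_iff.mp (Prod.ext_iff.mp hh).1).2
      have h2 := digZ_step om K' s h1
      have h1' : digZ om (s + K') v = digZ om (s + K') v' := h1
      show blkZ om K' s v = blkZ om K' s v'
      unfold blkZ
      rw [h1', h2]
    · intro s v v' _ _ hh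
      have h1 : blkZ om K' s v = blkZ om K' s v' := (Prod.ext_iff.mp hh).1
      have h2 := Prod.ext_iff.mp (Prod.ext_iff.mp (Prod.ext_iff.mp hh).2).1
      have h3 : digZ om s v = digZ om s v' := h2.2
      refine Prod.ext h2.1 ?_
      show digZ om (s + K') v = digZ om (s + K') v'
      unfold blkZ at h1
      rw [h3] at h1
      linarith
    · intro s v v' _ _ hA _ hG hx0 i
      have h1 := Prod.ext_iff.mp hG
      have h2 : d.T (wm v) = d.T (wm v') := (Prod.ext_iff.mp hx0).1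
      have h3 : d.Yt (d.T (wm v)) (d.L (w₁ v)) = d.Yt (d.T (wm v')) (d.L (w₁ v')) := h1.1
      rw [← h2] at h3
      have h4 : digZ om s v = digZ om s v' := h1.2
      have h5 := small d (M (x₁ v)) hA (d.Yt (d.T (wm v)) (d.L (w₁ v))) (digZ_near om s h4) i
      unfold Zf
      rw [← h3, add_sub_add_right_eq_sub]
      exact h5
    · exact h.mi_V.trans hδX'
    · refine le_trans (mi_left hQ0 (N := fun v => d.N (w₀ v)) h.xx1 fun v v' _ _ hh => ?_)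
        (h.mi_N0.trans hδX)
      have h1 := Prod.ext_iff.mp hh
      have e1 : d.N (w₀ v) = d.N (w₀ v') := h1.1
      have e2 : x₁ v = x₁ v' := h1.2
      show nz (M (x₁ v)) (d.N (w₀ v)) = nz (M (x₁ v')) (d.N (w₀ v'))
      rw [e1, e2]
    · refine le_trans (mi_left hQ0 (N := fun v => d.N (w₁ v)) h.xx1 fun v v' _ _ hh => ?_)
        (h.mi_N1.trans hδX)
      have h1 := Prod.ext_iff.mp hh
      have e1 : d.N (w₁ v) = d.N (w₁ v') := h1.1
      have e2 : x₁ v = x₁ v' := h1.2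
      show nz (M (x₁ v)) (d.N (w₁ v)) = nz (M (x₁ v')) (d.N (w₁ v'))
      rw [e1, e2]
    · refine le_trans (mi_mono_left hQ0 (fun v => d.N (w₁ v)) _ x x₁ fun v v' _ _ hh => ?_)
        (h.mi_Nx.trans hδX)
      have h1 := Prod.ext_iff.mp hh
      have e1 : d.N (w₁ v) = d.N (w₁ v') := h1.1
      have e2 : x₁ v = x₁ v' := h1.2
      show nz (M (x₁ v)) (d.N (w₁ v)) = nz (M (x₁ v')) (d.N (w₁ v'))
      rw [e1, e2]
  -- the activity
  have hact : ∑ s ∈ range d.X, ∑ v, Q v * exc d w₁ wm Q k₇ s v ≤ 2 * a * d.X := by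
    have h1 := act_tr hQ om (fun v => d.B (w₁ v))
      (fun v => (d.T (wm v), d.Yt (d.T (wm v)) (d.L (w₁ v)))) k₇ d.X ha0
    have h2 := h.mi_om (d.X + (k₇ + 2))
    have h3 : ∀ I : ℝ, I ≤ 2 * δ * d.X → ((k₇ + 2 : ℕ) : ℝ) * I / a ≤ a * d.X := by
      intro I hI
      rw [div_le_iff₀ ha0]
      have h4 : ((k₇ + 2 : ℕ) : ℝ) * I ≤ ((k₇ + 2 : ℕ) : ℝ) * (2 * δ * d.X) :=
        mul_le_mul_of_nonneg_left hI hk.le
      have h5 : (((k₇ + 2 : ℕ) : ℝ) * (2 * δ)) * d.X ≤ a ^ 2 * d.X :=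
        mul_le_mul_of_nonneg_right hδ2 hX0
      have h6 : ((k₇ + 2 : ℕ) : ℝ) * (2 * δ * d.X) = (((k₇ + 2 : ℕ) : ℝ) * (2 * δ)) * d.X := by
        ring
      have h7 : a ^ 2 * d.X = a * d.X * a := by ring
      linarith
    have h4 := h3 _ h2
    refine le_trans h1 ?_
    linarith
  -- the sum
  have hpoint : ∀ v, Q v * ∑ r ∈ Finset.Ico (r₁' + c + 5 + A + kmax)
      (d.X - (r₁' + c + 5 + A + kmax)),
          (if Adm d (M (x₁ v)) kz g (d.T (w₁ v)) (d.T (wm v)) (d.T (w₀ v)) ∧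
              0 ≤ (r : ℤ) - mus d (d.T (w₁ v)) (d.T (wm v)) (d.T (w₀ v)) ∧
              d.act c₁ k₇ ((r : ℤ) - mus d (d.T (w₁ v)) (d.T (wm v)) (d.T (w₀ v))).toNat
                (d.L (w₁ v)) then
            (∑ u : Fin c → Fin (2 ^ d.X),
              if low Q (sh (fun v => nz (M (x₁ v)) (d.N (w₁ v))) u) x₁ (d.X + (kz + 4) + 1 - r)
                  K D v ∧
                (2 : ℝ) ^ (-(g : ℤ)) <
                  |∑ i, C ξ₁ (law Q (fun v => (nz (M (x₁ v)) (d.N (w₁ v)), x₁ v))) d.X r u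
                      (nz (M (x₁ v)) (d.N (w₁ v))) (x₁ v) i *
                    (zc (M (x₁ v)) (d.chi (d.T (w₁ v)) (d.T (wm v))) i +
                      zc (M (x₁ v)) (d.chi (d.T (w₁ v)) (d.T (w₀ v))) i)|
              then (1 : ℝ) else 0) / (2 : ℝ) ^ (c * d.X)
          else 0) ≤
      Q v * ∑ s ∈ range d.X, 2 / c₁ * (RSm Q (fun v => nz (M (x₁ v)) (d.N (w₁ v))) x₁
        (fun v => (d.T (wm v), d.B (w₁ v))) (Zf d w₁ wm w₀ x₁ M) (Gf d w₁ wm)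
        (muf d w₁ wm w₀) (Af d w₁ wm w₀ x₁ M kz g) C r₁' (kmax + c + 4) d.X (kz + 4)
        (k₇ + g + 2) K D v s + exc d w₁ wm Q k₇ s v) := by
    intro v
    rcases (hQ0 v).eq_or_lt with hv | hv
    · rw [← hv, zero_mul, zero_mul]
    refine mul_le_mul_of_nonneg_left ?_ hv.le
    refine sum_rows _ (mus d (d.T (w₁ v)) (d.T (wm v)) (d.T (w₀ v))) d.X _ _ _ (fun s => ?_)
      fun r hr hP => ?_
    · have h1 := RSm_nonneg hQ0 (fun v => nz (M (x₁ v)) (d.N (w₁ v))) x₁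
        (fun v => (d.T (wm v), d.B (w₁ v))) (Zf d w₁ wm w₀ x₁ M) (Gf d w₁ wm)
        (muf d w₁ wm w₀) (Af d w₁ wm w₀ x₁ M kz g) C r₁' (kmax + c + 4) d.X (kz + 4)
        (k₇ + g + 2) K D v s
      have h2 : 0 ≤ exc d w₁ wm Q k₇ s v := le_max_left _ _
      positivity
    · obtain ⟨hA, hr0, hactv⟩ := hP
      have hr' := Finset.mem_Ico.mp hr
      have hmu := mus_pos d hOK.hth (M (x₁ v)) hA
      refine ⟨hr0, by omega, ?_⟩
      set n := ((r : ℤ) - mus d (d.T (w₁ v)) (d.T (wm v)) (d.T (w₀ v))).toNat with hn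
      have hrn : (r : ℤ) = n + muf d w₁ wm w₀ v := by
        unfold muf
        omega
      exact one_row h M C hC k₇ kz g r₁' (kmax + c + 4) K D c₁ hc₁ hv n r hA hrn hactv
        (by omega) (by omega)
  refine (Finset.sum_le_sum fun v _ => hpoint v).trans ?_
  have e1 : ∀ v, Q v * ∑ s ∈ range d.X, 2 / c₁ * (RSm Q (fun v => nz (M (x₁ v)) (d.N (w₁ v))) x₁
        (fun v => (d.T (wm v), d.B (w₁ v))) (Zf d w₁ wm w₀ x₁ M) (Gf d w₁ wm)
        (muf d w₁ wm w₀) (Af d w₁ wm w₀ x₁ M kz g) C r₁' (kmax + c + 4) d.X (kz + 4)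
        (k₇ + g + 2) K D v s + exc d w₁ wm Q k₇ s v) =
      2 / c₁ * (Q v * ∑ s ∈ Finset.Ico (0 : ℤ) d.X,
        RSm Q (fun v => nz (M (x₁ v)) (d.N (w₁ v))) x₁
        (fun v => (d.T (wm v), d.B (w₁ v))) (Zf d w₁ wm w₀ x₁ M) (Gf d w₁ wm)
        (muf d w₁ wm w₀) (Af d w₁ wm w₀ x₁ M kz g) C r₁' (kmax + c + 4) d.X (kz + 4)
        (k₇ + g + 2) K D v s) +
      2 / c₁ * ∑ s ∈ range d.X, Q v * exc d w₁ wm Q k₇ s v := by
    intro v
    rw [sum_Ico_int, ← Finset.mul_sum, Finset.sum_add_distrib, ← Finset.mul_sum]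
    ring
  rw [Finset.sum_congr rfl fun v _ => e1 v, Finset.sum_add_distrib, ← Finset.mul_sum,
    ← Finset.mul_sum, Finset.sum_comm]
  have h8 := mul_le_mul_of_nonneg_left hmain (by positivity : (0 : ℝ) ≤ 2 / c₁)
  have h9 := mul_le_mul_of_nonneg_left hact (by positivity : (0 : ℝ) ≤ 2 / c₁)
  have e2 : 2 / c₁ * (ε * c₁ / 4 * d.X) = ε / 2 * d.X := by
    field_simp
    ring
  have e3 : 2 / c₁ * (2 * a * d.X) = ε / 2 * d.X := by
    rw [ha]
    field_simp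
    ring
  rw [e2] at h8
  rw [e3] at h9
  linarith

end Pool.OCV.M17
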